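import Pool.Agent.H888.L1I.IsoS

set_option autoImplicit false
set_option maxRecDepth 100000
set_option maxHeartbeats 4000000

/-!
# An explicit endomorphism of degree 7 (discriminant `-27`)
-/

namespace Pool.Agent.H888.L1I.I27

open Polynomial Pool.Agent.H546

def Fl : List Q4 := [⟨.ofNat 0, .negSucc 252, .ofNat 0, .ofNat 0⟩, ⟨.negSucc 1199, .ofNat 0, .ofNat 0, .ofNat 0⟩, ⟨.ofNat 0, .ofNat 0, .ofNat 0, .ofNat 0⟩, ⟨.ofNat 400, .ofNat 0, .ofNat 0, .ofNat 0⟩]

def n : List Q4 := [⟨.ofNat 0, .ofNat 9905742, .ofNat 0, .negSucc 14463917⟩, ⟨.ofNat 181444060, .ofNat 0, .negSucc 207167099, .ofNat 0⟩, ⟨.ofNat 0, .ofNat 131006400, .ofNat 0, .negSucc 119011199⟩, ⟨.ofNat 478661400, .ofNat 0, .negSucc 345420599, .ofNat 0⟩, ⟨.ofNat 0, .ofNat 93746800, .ofNat 0, .negSucc 51743999⟩, ⟨.ofNat 96726000, .ofNat 0, .negSucc 34985999, .ofNat 0⟩, ⟨.ofNat 0, .ofNat 5292000, .ofNat 0, .negSucc 587999⟩, ⟨.ofNat 1960000, .ofNat 0, .ofNat 0, .ofNat 0⟩]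

def n1 : List Q4 := [⟨.ofNat 181444060, .ofNat 0, .negSucc 207167099, .ofNat 0⟩, ⟨.ofNat 0, .ofNat 262012800, .ofNat 0, .negSucc 238022399⟩, ⟨.ofNat 1435984200, .ofNat 0, .negSucc 1036261799, .ofNat 0⟩, ⟨.ofNat 0, .ofNat 374987200, .ofNat 0, .negSucc 206975999⟩, ⟨.ofNat 483630000, .ofNat 0, .negSucc 174929999, .ofNat 0⟩, ⟨.ofNat 0, .ofNat 31752000, .ofNat 0, .negSucc 3527999⟩, ⟨.ofNat 13720000, .ofNat 0, .ofNat 0, .ofNat 0⟩]

def h : List Q4 := [⟨.ofNat 0, .ofNat 1009, .ofNat 0, .negSucc 254⟩, ⟨.ofNat 7770, .ofNat 0, .negSucc 1469, .ofNat 0⟩, ⟨.ofNat 0, .ofNat 1890, .ofNat 0, .negSucc 209⟩, ⟨.ofNat 1400, .ofNat 0, .ofNat 0, .ofNat 0⟩]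

def h1 : List Q4 := [⟨.ofNat 7770, .ofNat 0, .negSucc 1469, .ofNat 0⟩, ⟨.ofNat 0, .ofNat 3780, .ofNat 0, .negSucc 419⟩, ⟨.ofNat 4200, .ofNat 0, .ofNat 0, .ofNat 0⟩]

def a1 : List Q4 := [⟨.ofNat 0, .ofNat 24594225040, .ofNat 0, .negSucc 255299839199⟩, ⟨.ofNat 1319051227200, .ofNat 0, .negSucc 4946189791199, .ofNat 0⟩, ⟨.ofNat 0, .ofNat 1854742453200, .ofNat 0, .negSucc 4076006062799⟩, ⟨.ofNat 12494459628000, .ofNat 0, .negSucc 18546140339999, .ofNat 0⟩, ⟨.ofNat 0, .ofNat 4783030728000, .ofNat 0, .negSucc 5052587567999⟩, ⟨.ofNat 11073439440000, .ofNat 0, .negSucc 8336793359999, .ofNat 0⟩, ⟨.ofNat 0, .ofNat 1573834920000, .ofNat 0, .negSucc 799532999999⟩, ⟨.ofNat 1361572800000, .ofNat 0, .negSucc 398428799999, .ofNat 0⟩, ⟨.ofNat 0, .ofNat 70383600000, .ofNat 0, .negSucc 7820399999⟩, ⟨.ofNat 19208000000, .ofNat 0, .ofNat 0, .ofNat 0⟩]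

def a2 : List Q4 := [⟨.ofNat 0, .ofNat 13181736960, .ofNat 0, .negSucc 126946083599⟩, ⟨.ofNat 688405116000, .ofNat 0, .negSucc 2464751351999, .ofNat 0⟩, ⟨.ofNat 0, .ofNat 959512453200, .ofNat 0, .negSucc 2037343030799⟩, ⟨.ofNat 6410460084000, .ofNat 0, .negSucc 9306502379999, .ofNat 0⟩, ⟨.ofNat 0, .ofNat 2424558612000, .ofNat 0, .negSucc 2546433371999⟩, ⟨.ofNat 5499305280000, .ofNat 0, .negSucc 4214454719999, .ofNat 0⟩, ⟨.ofNat 0, .ofNat 753804240000, .ofNat 0, .negSucc 402544799999⟩, ⟨.ofNat 614107200000, .ofNat 0, .negSucc 194275199999, .ofNat 0⟩, ⟨.ofNat 0, .ofNat 29635200000, .ofNat 0, .negSucc 3292799999⟩, ⟨.ofNat 8232000000, .ofNat 0, .ofNat 0, .ofNat 0⟩]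

def W : List Q4 := [⟨.ofNat 0, .negSucc 1769248879, .ofNat 0, .negSucc 1407671999⟩, ⟨.negSucc 57759004799, .ofNat 0, .negSucc 16687087199, .ofNat 0⟩, ⟨.ofNat 0, .negSucc 64282453199, .ofNat 0, .negSucc 1320001199⟩, ⟨.negSucc 326460539999, .ofNat 0, .ofNat 66864420000, .ofNat 0⟩, ⟨.ofNat 0, .negSucc 66086495999, .ofNat 0, .ofNat 40279176000⟩, ⟨.ofNat 74828880000, .ofNat 0, .ofNat 92116080000, .ofNat 0⟩, ⟨.ofNat 0, .ofNat 66226440000, .ofNat 0, .ofNat 5556600000⟩, ⟨.ofNat 133358400000, .ofNat 0, .negSucc 9878399999, .ofNat 0⟩, ⟨.ofNat 0, .ofNat 11113200000, .ofNat 0, .negSucc 1234799999⟩, ⟨.ofNat 2744000000, .ofNat 0, .ofNat 0, .ofNat 0⟩]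

def W2 : List Q4 := [⟨.negSucc 28143797793707455999, .ofNat 0, .ofNat 49810442188147200000, .ofNat 0⟩, ⟨.ofNat 0, .ofNat 63440436626638848000, .ofNat 0, .ofNat 221658688287775872000⟩, ⟨.ofNat 4663871440627875840000, .ofNat 0, .ofNat 3784139501478618240000, .ofNat 0⟩, ⟨.ofNat 0, .ofNat 9013538115597953280000, .ofNat 0, .ofNat 2980356837382310400000⟩, ⟨.ofNat 91417233310426396800000, .ofNat 0, .ofNat 5303649051918403200000, .ofNat 0⟩, ⟨.ofNat 0, .ofNat 54681202204243776000000, .ofNat 0, .negSucc 10718570867618879999999⟩, ⟨.ofNat 180022789752902880000000, .ofNat 0, .negSucc 108896929739105759999999, .ofNat 0⟩, ⟨.ofNat 0, .ofNat 10449668555980416000000, .ofNat 0, .negSucc 50369872376710655999999⟩, ⟨.negSucc 192406950436417919999999, .ofNat 0, .negSucc 115846935217009919999999, .ofNat 0⟩, ⟨.ofNat 0, .negSucc 96262950383062399999999, .ofNat 0, .negSucc 236831390006399999999⟩, ⟨.negSucc 218631021187622399999999, .ofNat 0, .ofNat 85278722087462400000000,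 .ofNat 0⟩, ⟨.ofNat 0, .negSucc 15512267995257599999999, .ofNat 0, .ofNat 27366557140742400000000⟩, ⟨.ofNat 54854954974176000000000, .ofNat 0, .ofNat 41402038416480000000000, .ofNat 0⟩, ⟨.ofNat 0, .ofNat 19976009598720000000000, .ofNat 0, .ofNat 2257279597440000000000⟩, ⟨.ofNat 33033806225280000000000, .ofNat 0, .negSucc 2529698209919999999999, .ofNat 0⟩, ⟨.ofNat 0, .ofNat 3254340754560000000000, .ofNat 0, .negSucc 518408553599999999999⟩, ⟨.ofNat 1921161110400000000000, .ofNat 0, .negSucc 328664246399999999999, .ofNat 0⟩, ⟨.ofNat 0, .ofNat 60989241600000000000, .ofNat 0, .negSucc 6776582399999999999⟩, ⟨.ofNat 7529536000000000000, .ofNat 0, .ofNat 0, .ofNat 0⟩]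

def T1 : List Q4 := [⟨.ofNat 0, .ofNat 7120380841807986368000, .ofNat 0, .negSucc 12602041873601241599999⟩, ⟨.negSucc 126731747312947338239999, .ofNat 0, .negSucc 620569011993849596159999, .ofNat 0⟩, ⟨.ofNat 0, .negSucc 1256087998430819205119999, .ofNat 0, .negSucc 1223377719819421461119999⟩, ⟨.negSucc 28412154680333755788799999, .ofNat 0, .negSucc 12061346023476328319999999, .ofNat 0⟩, ⟨.ofNat 0, .negSucc 33919429591604766787199999, .ofNat 0, .negSucc 4829587939679018140799999⟩, ⟨.negSucc 246178572972997279103999999, .ofNat 0, .ofNat 22267261233365129856000000, .ofNat 0⟩, ⟨.ofNat 0, .negSucc 107557793206337778527999999, .ofNat 0, .ofNat 41605351000089337440000000⟩, ⟨.negSucc 205898115825943349759999999, .ofNat 0, .ofNat 260233552420772232960000000, .ofNat 0⟩, ⟨.ofNat 0, .ofNat 58011837074934744960000000, .ofNat 0, .ofNat 85465693114908744960000000⟩, ⟨.ofNat 546442720894010528000000000, .ofNat 0, .ofNat 96056733781485792000000000, .ofNat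 0⟩, ⟨.ofNat 0, .ofNat 175009056242535513600000000, .ofNat 0, .negSucc 41439267970804569599999999⟩, ⟨.ofNat 224640483278581440000000000, .ofNat 0, .negSucc 217910630157837119999999999, .ofNat 0⟩, ⟨.ofNat 0, .negSucc 33768762167382367999999999, .ofNat 0, .negSucc 43409316844262879999999999⟩, ⟨.negSucc 203817658728821759999999999, .ofNat 0, .negSucc 21281874646314239999999999, .ofNat 0⟩, ⟨.ofNat 0, .negSucc 38533671691562879999999999, .ofNat 0, .ofNat 8877900986478720000000000⟩, ⟨.negSucc 25932067589702399999999999, .ofNat 0, .ofNat 20908026859104000000000000, .ofNat 0⟩, ⟨.ofNat 0, .ofNat 3599141173084800000000000, .ofNat 0, .ofNat 1608154157635200000000000⟩, ⟨.ofNat 10753826376384000000000000, .ofNat 0, .negSucc 600337434815999999999999, .ofNat 0⟩, ⟨.ofNat 0, .ofNat 1226644239296000000000000, .ofNat 0, .negSucc 199231522559999999999999⟩, ⟨.ofNat 759429000960000000000000, .ofNat 0, .negSucc 131465698559999999999999, .ofNat 0⟩, ⟨.ofNat 0, .ofNat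 24395696640000000000000, .ofNat 0, .negSucc 2710632959999999999999⟩, ⟨.ofNat 3011814400000000000000, .ofNat 0, .ofNat 0, .ofNat 0⟩]

def n2 : List Q4 := [⟨.negSucc 5294910471616079, .ofNat 0, .negSucc 2865516800343119, .ofNat 0⟩, ⟨.ofNat 0, .negSucc 14384011588601759, .ofNat 0, .negSucc 9353071697830559⟩, ⟨.negSucc 173160457355866399, .ofNat 0, .negSucc 136653680832563999, .ofNat 0⟩, ⟨.ofNat 0, .negSucc 120884383561099199, .ofNat 0, .negSucc 118158115734724799⟩, ⟨.negSucc 535273997781599999, .ofNat 0, .negSucc 672869572656959999, .ofNat 0⟩, ⟨.ofNat 0, .negSucc 152656355734287999, .ofNat 0, .negSucc 265547740505039999⟩, ⟨.negSucc 260536589202959999, .ofNat 0, .negSucc 743813548687439999, .ofNat 0⟩, ⟨.ofNat 0, .negSucc 15905268146879999, .ofNat 0, .negSucc 148952330614079999⟩, ⟨.ofNat 38028336460800000, .ofNat 0, .negSucc 212280765479999999, .ofNat 0⟩, ⟨.ofNat 0, .ofNat 11634665918400000, .ofNat 0, .negSucc 21254992718399999⟩, ⟨.ofNat 15656844168000000,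 .ofNat 0, .negSucc 14701207751999999, .ofNat 0⟩, ⟨.ofNat 0, .ofNat 1267804832000000, .ofNat 0, .negSucc 686878079999999⟩, ⟨.ofNat 648846240000000, .ofNat 0, .negSucc 199379039999999, .ofNat 0⟩, ⟨.ofNat 0, .ofNat 20744640000000, .ofNat 0, .negSucc 2304959999999⟩, ⟨.ofNat 3841600000000, .ofNat 0, .ofNat 0, .ofNat 0⟩]

def n3 : List Q4 := [⟨.ofNat 0, .negSucc 176789817128282990163839, .ofNat 0, .ofNat 48200080757931850406400⟩, ⟨.negSucc 8224957409674877527622399, .ofNat 0, .ofNat 1731000734735611563302400, .ofNat 0⟩, ⟨.ofNat 0, .negSucc 17784518336263910491142399, .ofNat 0, .ofNat 2688509824178698625817600⟩, ⟨.negSucc 237336229973656611320767999, .ofNat 0, .ofNat 22181152284887016859200000, .ofNat 0⟩, ⟨.ofNat 0, .negSucc 218862039586891606220447999, .ofNat 0, .ofNat 7883519148907378649568000⟩, ⟨.negSucc 1479200263405563124722239999, .ofNat 0, .negSucc 33365065285432186367039999, .ofNat 0⟩, ⟨.ofNat 0, .negSucc 758112158943094910095679999, .ofNat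 0, .negSucc 63669050943380505604799999⟩, ⟨.negSucc 3006103788084872582956799999, .ofNat 0, .negSucc 452623461789515152147199999, .ofNat 0⟩, ⟨.ofNat 0, .negSucc 932151624769940682038399999, .ofNat 0, .negSucc 210420208298868339542399999⟩, ⟨.negSucc 2267788712554921866239999999, .ofNat 0, .negSucc 714550621774697850239999999, .ofNat 0⟩, ⟨.ofNat 0, .negSucc 431139921761108210111999999, .ofNat 0, .negSucc 184849803298059536447999999⟩, ⟨.negSucc 632103681282013765439999999, .ofNat 0, .negSucc 371313769090661490239999999, .ofNat 0⟩, ⟨.ofNat 0, .negSucc 69403411746039042559999999, .ofNat 0, .negSucc 58403748707224099199999999⟩, ⟨.negSucc 53206120049319215999999999, .ofNat 0, .negSucc 72084160390198319999999999, .ofNat 0⟩, ⟨.ofNat 0, .negSucc 2212966088490931199999999, .ofNat 0, .negSucc 6963816037633459199999999⟩, ⟨.ofNat 532603539813408000000000, .ofNat 0, .negSucc 5227058725045919999999999, .ofNat 0⟩, ⟨.ofNat 0, .ofNat 168185016889344000000000,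 .ofNat 0, .negSucc 300450352172543999999999⟩, ⟨.ofNat 145205219376000000000000, .ofNat 0, .negSucc 128826219715199999999999, .ofNat 0⟩, ⟨.ofNat 0, .ofNat 7691646910080000000000, .ofNat 0, .negSucc 3930417791999999999999⟩, ⟨.ofNat 2700468086400000000000, .ofNat 0, .negSucc 769142102399999999999, .ofNat 0⟩, ⟨.ofNat 0, .ofNat 60989241600000000000, .ofNat 0, .negSucc 6776582399999999999⟩, ⟨.ofNat 7529536000000000000, .ofNat 0, .ofNat 0, .ofNat 0⟩]

def h2 : List Q4 := [⟨.ofNat 8230060, .ofNat 0, .negSucc 5145899, .ofNat 0⟩, ⟨.ofNat 0, .ofNat 13430760, .ofNat 0, .negSucc 6929159⟩, ⟨.ofNat 88817400, .ofNat 0, .negSucc 36720599, .ofNat 0⟩, ⟨.ofNat 0, .ofNat 30343600, .ofNat 0, .negSucc 9533999⟩, ⟨.ofNat 56154000, .ofNat 0, .negSucc 12053999, .ofNat 0⟩, ⟨.ofNat 0, .ofNat 5292000, .ofNat 0, .negSucc 587999⟩, ⟨.ofNat 1960000, .ofNat 0, .ofNat 0, .ofNat 0⟩]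

def h4 : List Q4 := [⟨.negSucc 11706972826399, .ofNat 0, .negSucc 84702131507999, .ofNat 0⟩, ⟨.ofNat 0, .ofNat 7131334627200, .ofNat 0, .negSucc 252281500867199⟩, ⟨.ofNat 691637241456000, .ofNat 0, .negSucc 3379794099023999, .ofNat 0⟩, ⟨.ofNat 0, .ofNat 1064206123904000, .ofNat 0, .negSucc 2686452128639999⟩, ⟨.ofNat 8582448152880000, .ofNat 0, .negSucc 14065282964879999, .ofNat 0⟩, ⟨.ofNat 0, .ofNat 4365703560960000, .ofNat 0, .negSucc 5088172199039999⟩, ⟨.ofNat 15008862523200000, .ofNat 0, .negSucc 12962644631999999, .ofNat 0⟩, ⟨.ofNat 0, .ofNat 3581433676800000, .ofNat 0, .negSucc 2322530380799999⟩, ⟨.ofNat 5940746280000000, .ofNat 0, .negSucc 2863624679999999, .ofNat 0⟩, ⟨.ofNat 0, .ofNat 670754336000000, .ofNat 0, .negSucc 230989919999999⟩, ⟨.ofNat 489804000000000, .ofNat 0, .negSucc 109485599999999, .ofNat 0⟩, ⟨.ofNat 0, .ofNat 20744640000000, .ofNat 0, .negSucc 2304959999999⟩, ⟨.ofNat 3841600000000, .ofNat 0, .ofNat 0, .ofNat 0⟩]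

def h6 : List Q4 := [⟨.negSucc 1403955184360693183999, .ofNat 0, .negSucc 636860712971358719999, .ofNat 0⟩, ⟨.ofNat 0, .negSucc 5753932221113459711999, .ofNat 0, .negSucc 3169483535827824767999⟩, ⟨.negSucc 108339927624047831039999, .ofNat 0, .negSucc 72845604824377069439999, .ofNat 0⟩, ⟨.ofNat 0, .negSucc 123618629922891613439999, .ofNat 0, .negSucc 102899036180380607999999⟩, ⟨.negSucc 946625107229953199999999, .ofNat 0, .negSucc 1001902323117492719999999, .ofNat 0⟩, ⟨.ofNat 0, .negSucc 505773067347118771199999, .ofNat 0, .negSucc 714243139573274035199999⟩, ⟨.negSucc 1868069655028091423999999, .ofNat 0, .negSucc 3862511077445526239999999, .ofNat 0⟩, ⟨.ofNat 0, .negSucc 428579903404267775999999, .ofNat 0, .negSucc 1618957101577382783999999⟩, ⟨.negSucc 239049950383278719999999, .ofNat 0, .negSucc 5325162372480222719999999, .ofNat 0⟩, ⟨.ofNat 0, .ofNat 252966686502140800000000, .ofNat 0, .negSucc 1382289850731887999999999⟩, ⟨.ofNat 1211188475289945600000000,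 .ofNat 0, .negSucc 2830929120108633599999999, .ofNat 0⟩, ⟨.ofNat 0, .ofNat 319166340497222400000000, .ofNat 0, .negSucc 454654624178361599999999⟩, ⟨.ofNat 579263574843744000000000, .ofNat 0, .negSucc 565304927473439999999999, .ofNat 0⟩, ⟨.ofNat 0, .ofNat 76090158458496000000000, .ofNat 0, .negSucc 53240974730495999999999⟩, ⟨.ofNat 72587362377600000000000, .ofNat 0, .negSucc 36651145910399999999999, .ofNat 0⟩, ⟨.ofNat 0, .ofNat 4911699192960000000000, .ofNat 0, .negSucc 1736257219199999999999⟩, ⟨.ofNat 2232883900800000000000, .ofNat 0, .negSucc 504855388799999999999, .ofNat 0⟩, ⟨.ofNat 0, .ofNat 60989241600000000000, .ofNat 0, .negSucc 6776582399999999999⟩, ⟨.ofNat 7529536000000000000, .ofNat 0, .ofNat 0, .ofNat 0⟩]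

def nh : List Q4 := [⟨.ofNat 0, .negSucc 3791340306090114220799, .ofNat 0, .negSucc 669708766579041100799⟩, ⟨.negSucc 163529602159400848447999, .ofNat 0, .negSucc 38965224003657759359999, .ofNat 0⟩, ⟨.ofNat 0, .negSucc 327078551795843538431999, .ofNat 0, .negSucc 100438770835057269887999⟩, ⟨.negSucc 4020098622320180171519999, .ofNat 0, .negSucc 1552058773125093717119999, .ofNat 0⟩, ⟨.ofNat 0, .negSucc 3390194701182628086719999, .ofNat 0, .negSucc 1627014918426914721599999⟩, ⟨.negSucc 20723358080851720963199999, .ofNat 0, .negSucc 12356146550790456220799999, .ofNat 0⟩, ⟨.ofNat 0, .negSucc 9441682889806645228799999, .ofNat 0, .negSucc 7068415528890849772799999⟩, ⟨.negSucc 32364919836587216927999999, .ofNat 0, .negSucc 31201782728022194399999999, .ofNat 0⟩, ⟨.ofNat 0, .negSucc 8263984346956384703999999, .ofNat 0, .negSucc 10784119658801622335999999⟩, ⟨.negSucc 15026055323386141439999999, .ofNat 0, .negSucc 29409053383574202239999999, .ofNat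 0⟩, ⟨.ofNat 0, .negSucc 1652603698935217279999999, .ofNat 0, .negSucc 6341481605808719999999999⟩, ⟨.negSucc 46475761223001599999999, .ofNat 0, .negSucc 10780116848888486399999999, .ofNat 0⟩, ⟨.ofNat 0, .ofNat 389312061512774400000000, .ofNat 0, .negSucc 1432864274556153599999999⟩, ⟨.ofNat 862921046893920000000000, .ofNat 0, .negSucc 1467923478729119999999999, .ofNat 0⟩, ⟨.ofNat 0, .ofNat 111008028845952000000000, .ofNat 0, .negSucc 113343819990911999999999⟩, ⟨.ofNat 96659138378880000000000, .ofNat 0, .negSucc 63729013864319999999999, .ofNat 0⟩, ⟨.ofNat 0, .ofNat 5838348432000000000000, .ofNat 0, .negSucc 2467644076799999999999⟩, ⟨.ofNat 2388745296000000000000, .ofNat 0, .negSucc 592950959999999999999, .ofNat 0⟩, ⟨.ofNat 0, .ofNat 60989241600000000000, .ofNat 0, .negSucc 6776582399999999999⟩, ⟨.ofNat 7529536000000000000, .ofNat 0, .ofNat 0, .ofNat 0⟩]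

def A : List Q4 := [⟨.ofNat 0, .negSucc 465000, .ofNat 0, .negSucc 31493⟩, ⟨.negSucc 1932069, .ofNat 0, .negSucc 315069, .ofNat 0⟩, ⟨.ofNat 0, .negSucc 163824, .ofNat 0, .negSucc 53974⟩]

def B : List Q4 := [⟨.ofNat 0, .ofNat 9012068730, .ofNat 0, .negSucc 4078976579⟩, ⟨.ofNat 114919956970, .ofNat 0, .negSucc 40829366969, .ofNat 0⟩, ⟨.ofNat 0, .ofNat 55814617600, .ofNat 0, .negSucc 14773534999⟩, ⟨.ofNat 127078789600, .ofNat 0, .negSucc 21902124999, .ofNat 0⟩, ⟨.ofNat 0, .ofNat 13412037800, .ofNat 0, .negSucc 706855799⟩, ⟨.ofNat 6141233000, .ofNat 0, .ofNat 1117193000, .ofNat 0⟩, ⟨.ofNat 0, .ofNat 229355000, .ofNat 0, .ofNat 75565000⟩]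

def AM : Q4 := ⟨.negSucc 42599, .ofNat 0, .ofNat 23400, .ofNat 0⟩

def BM : Q4 := ⟨.ofNat 0, .ofNat 36179, .ofNat 0, .negSucc 45539⟩

theorem ok : Ok (10) (-3) AM BM (400) (4286520) Fl n n1 h h1 a1 a2 W W2 T1 n2 n3 h2 h4 h6 nh A B where
  k1 := by decide +kernel
  k2 := by decide +kernel
  k3 := by decide +kernel
  k4 := by decide +kernel
  k5 := by decide +kernel
  k6 := by decide +kernel
  k7 := by decide +kernel
  k8 := by decide +kernel
  k9 := by decide +kernel
  k10 := by decide +kernel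
  k11 := by decide +kernel
  k12 := by decide +kernel
  k13 := by decide +kernel
  k14 := by decide +kernel
  k15 := by decide +kernel

/-- the endomorphism `(1 + 3 √-3) / 2` of the curve with `j = -12288000` (discriminant `-27`) -/
theorem psi {O K k : Type*} [CommRing O] [IsDomain O] [Field K] [Algebra O K] [Field k]
    (S : DV O K k) {p : ℕ} [hp : Fact p.Prime] [CharP k p] (h2 : p ≠ 2) (h3 : p ≠ 3) (h5 : p ≠ 5)
    (h7 : p ≠ 7) {s r z m : O} (hs : s ^ 2 = 10) (hr : r ^ 2 = -3)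
    (hz : 800 * (1 - 2 * z) = 253 * s) (hm : 2 * m = 1 + 3 * r) :
    Dat S (cub (-3) (4 * z - 2)) (-3) (4 * z - 2) m 7 := by
  have hs' : s ^ 2 = ((10 : ℤ) : O) := by rw [hs]; norm_num
  have hr' : r ^ 2 = ((-3 : ℤ) : O) := by rw [hr]; norm_num
  have r2 := S.two_ne (p := p) h2
  have h2O : (2 : O) ≠ 0 := by intro h0; rw [h0, map_zero] at r2; exact r2 rfl
  have hm2 : 2 * m ^ 2 = -13 + 3 * r := by
    apply mul_left_cancel₀ h2O
    linear_combination (2 * m + (1 + 3 * r)) * hm + 9 * hr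
  have hm4 : 2 * m ^ 4 = 71 - 39 * r := by
    apply mul_left_cancel₀ h2O
    linear_combination (2 * m ^ 2 + (-13 + 3 * r)) * hm2 + 9 * hr
  have hm6 : m ^ 6 = -143 + 180 * r := by
    apply mul_left_cancel₀ h2O
    apply mul_left_cancel₀ h2O
    linear_combination 2 * m ^ 4 * hm2 + (-13 + 3 * r) * hm4 - 117 * hr
  have hmr : S.red m ≠ 0 := by
    refine S.ne_mul (p := p) (y := 1 - 3 * r) (n := 14) ?_ (ndvd_fac [(2, 1), (7, 1)] (by intro q hq; simp only [List.mem_cons, List.mem_nil_iff, or_false] at hq; rcases hq with rfl | rfl <;> refine ⟨by norm_num, ?_⟩ <;> assumption) (by decide +kernel))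
    apply mul_left_cancel₀ h2O
    push_cast
    linear_combination (1 - 3 * r) * hm - 9 * hr
  have hb : 400 * (4 * z - 2) = -(253 * s) := by linear_combination -hz
  refine ok.dat S (p := p) (L := 1960000) (M := 1400) (e := 3) hs' hr' ?_ ?_ ?_ (by decide)
    (by decide) (by norm_num) (by decide +kernel) (by decide +kernel) hmr
    (ndvd_fac [(2, 4), (5, 2)] (by intro q hq; simp only [List.mem_cons, List.mem_nil_iff, or_false] at hq; rcases hq with rfl | rfl <;> refine ⟨by norm_num, ?_⟩ <;> assumption) (by decide +kernel))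
    (ndvd_fac [(2, 3), (3, 7), (5, 1), (7, 2)] (by intro q hq; simp only [List.mem_cons, List.mem_nil_iff, or_false] at hq; rcases hq with rfl | rfl | rfl | rfl <;> refine ⟨by norm_num, ?_⟩ <;> assumption) (by decide +kernel))
    (ndvd_fac [(2, 6), (5, 4), (7, 2)] (by intro q hq; simp only [List.mem_cons, List.mem_nil_iff, or_false] at hq; rcases hq with rfl | rfl | rfl <;> refine ⟨by norm_num, ?_⟩ <;> assumption) (by decide +kernel))
    (ndvd_fac [(2, 3), (5, 2), (7, 1)] (by intro q hq; simp only [List.mem_cons, List.mem_nil_iff, or_false] at hq; rcases hq with rfl | rfl | rfl <;> refine ⟨by norm_num, ?_⟩ <;> assumption) (by decide +kernel))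
  · have e1 : C (400 * (4 * z - 2)) = C (-(253 * s)) := by rw [hb]
    simp only [Fl, ev, e4, cub]
    push_cast
    simp only [C_mul, C_add, C_sub, C_neg, map_ofNat, C_1, C_0] at e1 ⊢
    linear_combination (-1 : O[X]) * e1
  · simp only [AM, e4]; push_cast
    linear_combination 600 * hm4
  · simp only [BM, e4]; push_cast
    linear_combination (-(m ^ 6)) * hb + 253 * s * hm6

end Pool.Agent.H888.L1I.I27
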