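import Pool.Agent.H888.L1I.IsoS

set_option autoImplicit false
set_option maxRecDepth 100000
set_option maxHeartbeats 4000000

/-!
# An explicit endomorphism of degree 5 (discriminant `-19`)
-/

namespace Pool.Agent.H888.L1I.I19

open Polynomial Pool.Agent.H546

def Fl : List Q4 := [⟨.ofNat 0, .negSucc 2, .ofNat 0, .ofNat 0⟩, ⟨.negSucc 47, .ofNat 0, .ofNat 0, .ofNat 0⟩, ⟨.ofNat 0, .ofNat 0, .ofNat 0, .ofNat 0⟩, ⟨.ofNat 16, .ofNat 0, .ofNat 0, .ofNat 0⟩]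

def n : List Q4 := [⟨.ofNat 0, .ofNat 81225, .ofNat 0, .negSucc 47024⟩, ⟨.ofNat 3411450, .ofNat 0, .negSucc 1462049, .ofNat 0⟩, ⟨.ofNat 0, .ofNat 433200, .ofNat 0, .negSucc 136799⟩, ⟨.ofNat 2707500, .ofNat 0, .negSucc 541499, .ofNat 0⟩, ⟨.ofNat 0, .ofNat 72200, .ofNat 0, .negSucc 3799⟩, ⟨.ofNat 144400, .ofNat 0, .ofNat 0, .ofNat 0⟩]

def n1 : List Q4 := [⟨.ofNat 3411450, .ofNat 0, .negSucc 1462049, .ofNat 0⟩, ⟨.ofNat 0, .ofNat 866400, .ofNat 0, .negSucc 273599⟩, ⟨.ofNat 8122500, .ofNat 0, .negSucc 1624499, .ofNat 0⟩, ⟨.ofNat 0, .ofNat 288800, .ofNat 0, .negSucc 15199⟩, ⟨.ofNat 722000, .ofNat 0, .ofNat 0, .ofNat 0⟩]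

def h : List Q4 := [⟨.ofNat 627, .ofNat 0, .negSucc 56, .ofNat 0⟩, ⟨.ofNat 0, .ofNat 95, .ofNat 0, .negSucc 4⟩, ⟨.ofNat 380, .ofNat 0, .ofNat 0, .ofNat 0⟩]

def h1 : List Q4 := [⟨.ofNat 0, .ofNat 95, .ofNat 0, .negSucc 4⟩, ⟨.ofNat 760, .ofNat 0, .ofNat 0, .ofNat 0⟩]

def a1 : List Q4 := [⟨.ofNat 555579000, .ofNat 0, .negSucc 1111157999, .ofNat 0⟩, ⟨.ofNat 0, .ofNat 432117000, .ofNat 0, .negSucc 376883999⟩, ⟨.ofNat 11049849000, .ofNat 0, .negSucc 5494058999, .ofNat 0⟩, ⟨.ofNat 0, .ofNat 1111158000, .ofNat 0, .negSucc 324899999⟩, ⟨.ofNat 6502332000, .ofNat 0, .negSucc 987695999, .ofNat 0⟩, ⟨.ofNat 0, .ofNat 178334000, .ofNat 0, .negSucc 9385999⟩, ⟨.ofNat 274360000, .ofNat 0, .ofNat 0, .ofNat 0⟩]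

def a2 : List Q4 := [⟨.ofNat 370386000, .ofNat 0, .negSucc 555578999, .ofNat 0⟩, ⟨.ofNat 0, .ofNat 246924000, .ofNat 0, .negSucc 191690999⟩, ⟨.ofNat 5802714000, .ofNat 0, .negSucc 2839625999, .ofNat 0⟩, ⟨.ofNat 0, .ofNat 535002000, .ofNat 0, .negSucc 168947999⟩, ⟨.ofNat 2798472000, .ofNat 0, .negSucc 493847999, .ofNat 0⟩, ⟨.ofNat 0, .ofNat 68590000, .ofNat 0, .negSucc 3609999⟩, ⟨.ofNat 109744000, .ofNat 0, .ofNat 0, .ofNat 0⟩]

def W : List Q4 := [⟨.negSucc 185192999, .ofNat 0, .ofNat 0, .ofNat 0⟩, ⟨.ofNat 0, .negSucc 61730999, .ofNat 0, .ofNat 6498000⟩, ⟨.negSucc 555578999, .ofNat 0, .ofNat 185193000, .ofNat 0⟩, ⟨.ofNat 0, .ofNat 41154000, .ofNat 0, .ofNat 12996000⟩, ⟨.ofNat 905388000, .ofNat 0, .ofNat 0, .ofNat 0⟩, ⟨.ofNat 0, .ofNat 41154000, .ofNat 0, .negSucc 2165999⟩, ⟨.ofNat 54872000, .ofNat 0, .ofNat 0, .ofNat 0⟩]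

def W2 : List Q4 := [⟨.ofNat 34296447249000000, .ofNat 0, .ofNat 0, .ofNat 0⟩, ⟨.ofNat 0, .ofNat 22864298166000000, .ofNat 0, .negSucc 2406768227999999⟩, ⟨.ofNat 548743155984000000, .ofNat 0, .negSucc 160050087161999999, .ofNat 0⟩, ⟨.ofNat 0, .ofNat 7621432722000000, .ofNat 0, .negSucc 34898139305999999⟩, ⟨.negSucc 1623365169785999999, .ofNat 0, .negSucc 327721607045999999, .ofNat 0⟩, ⟨.ofNat 0, .negSucc 264209667695999999, .ofNat 0, .ofNat 13370934600000000⟩, ⟨.negSucc 1717362840023999999, .ofNat 0, .ofNat 548743155984000000, .ofNat 0⟩, ⟨.ofNat 0, .ofNat 37260337752000000, .ofNat 0, .ofNat 41895595080000000⟩, ⟨.ofNat 1266851483568000000, .ofNat 0, .ofNat 121942923552000000, .ofNat 0⟩, ⟨.ofNat 0, .ofNat 79037080080000000, .ofNat 0, .negSucc 2495907791999999⟩, ⟨.ofNat 282275286000000000, .ofNat 0, .negSucc 20323820591999999, .ofNat 0⟩, ⟨.ofNat 0, .ofNat 4516404576000000, .ofNat 0, .negSucc 237705503999999⟩,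 ⟨.ofNat 3010936384000000, .ofNat 0, .ofNat 0, .ofNat 0⟩]

def T1 : List Q4 := [⟨.ofNat 0, .negSucc 102889341746999999, .ofNat 0, .ofNat 0⟩, ⟨.negSucc 9465819440723999999, .ofNat 0, .ofNat 823114733976000000, .ofNat 0⟩, ⟨.ofNat 0, .negSucc 2743715779919999999, .ofNat 0, .ofNat 595675136430000000⟩, ⟨.negSucc 28397458322171999999, .ofNat 0, .ofNat 19617567826428000000, .ofNat 0⟩, ⟨.ofNat 0, .ofNat 4870095509358000000, .ofNat 0, .ofNat 2619767216178000000⟩, ⟨.ofNat 177061124997504000000, .ofNat 0, .ofNat 8596976110416000000, .ofNat 0⟩, ⟨.ofNat 0, .ofNat 17956095493032000000, .ofNat 0, .negSucc 2846404557647999999⟩, ⟨.ofNat 43716538093392000000, .ofNat 0, .negSucc 45911510717327999999, .ofNat 0⟩, ⟨.ofNat 0, .negSucc 9816405345935999999, .ofNat 0, .negSucc 2162882380895999999⟩, ⟨.negSucc 115317358039007999999, .ofNat 0, .ofNat 3780230630112000000, .ofNat 0⟩, ⟨.ofNat 0, .negSucc 4044440297807999999, .ofNat 0,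 .ofNat 851104557072000000⟩, ⟨.ofNat 5175799644096000000, .ofNat 0, .ofNat 3007925447616000000, .ofNat 0⟩, ⟨.ofNat 0, .ofNat 1038773052480000000, .ofNat 0, .negSucc 28524660479999999⟩, ⟨.ofNat 4371879629568000000, .ofNat 0, .negSucc 325181129471999999, .ofNat 0⟩, ⟨.ofNat 0, .ofNat 72262473216000000, .ofNat 0, .negSucc 3803288063999999⟩, ⟨.ofNat 48174982144000000, .ofNat 0, .ofNat 0, .ofNat 0⟩]

def n2 : List Q4 := [⟨.negSucc 4037670382499, .ofNat 0, .negSucc 870870082499, .ofNat 0⟩, ⟨.ofNat 0, .negSucc 2058420194999, .ofNat 0, .negSucc 558356894999⟩, ⟨.negSucc 48821504624999, .ofNat 0, .negSucc 17153501624999, .ofNat 0⟩, ⟨.ofNat 0, .negSucc 5172440489999, .ofNat 0, .negSucc 2542699889999⟩, ⟨.negSucc 30190162859999, .ofNat 0, .negSucc 25967762459999, .ofNat 0⟩, ⟨.ofNat 0, .negSucc 164204459999, .ofNat 0, .negSucc 1460555459999⟩, ⟨.ofNat 7623778500000, .ofNat 0, .negSucc 5981733899999, .ofNat 0⟩, ⟨.ofNat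 0, .ofNat 437878560000, .ofNat 0, .negSucc 138277439999⟩, ⟨.ofNat 1344912720000, .ofNat 0, .negSucc 218939279999, .ofNat 0⟩, ⟨.ofNat 0, .ofNat 20851360000, .ofNat 0, .negSucc 1097439999⟩, ⟨.ofNat 20851360000, .ofNat 0, .ofNat 0, .ofNat 0⟩]

def n3 : List Q4 := [⟨.ofNat 0, .negSucc 1106060423780249999, .ofNat 0, .ofNat 119135027286000000⟩, ⟨.negSucc 113898501313928999999, .ofNat 0, .ofNat 8797038719368500000, .ofNat 0⟩, ⟨.ofNat 0, .negSucc 45837201748288499999, .ofNat 0, .ofNat 2182337090739000000⟩, ⟨.negSucc 1236935666482433999999, .ofNat 0, .ofNat 21400983083376000000, .ofNat 0⟩, ⟨.ofNat 0, .negSucc 191339879202170999999, .ofNat 0, .negSucc 2998231520030999999⟩, ⟨.negSucc 2314289963915270999999, .ofNat 0, .negSucc 125833664956580999999, .ofNat 0⟩, ⟨.ofNat 0, .negSucc 171657529197605999999, .ofNat 0, .negSucc 17923202993915999999⟩, ⟨.negSucc 1010533386042701999999, .ofNat 0, .negSucc 179873433671921999999,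 .ofNat 0⟩, ⟨.ofNat 0, .negSucc 34951890463091999999, .ofNat 0, .negSucc 10820027697011999999⟩, ⟨.negSucc 79395005142647999999, .ofNat 0, .negSucc 52516752409727999999, .ofNat 0⟩, ⟨.ofNat 0, .negSucc 86376237515999999, .ofNat 0, .negSucc 1597291847315999999⟩, ⟨.ofNat 5731317406944000000, .ofNat 0, .negSucc 3922497374255999999, .ofNat 0⟩, ⟨.ofNat 0, .ofNat 198721801344000000, .ofNat 0, .negSucc 58000142975999999⟩, ⟨.ofNat 413251018704000000, .ofNat 0, .negSucc 60971461775999999, .ofNat 0⟩, ⟨.ofNat 0, .ofNat 4516404576000000, .ofNat 0, .negSucc 237705503999999⟩, ⟨.ofNat 3010936384000000, .ofNat 0, .ofNat 0, .ofNat 0⟩]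

def h2 : List Q4 := [⟨.ofNat 331398, .ofNat 0, .negSucc 71477, .ofNat 0⟩, ⟨.ofNat 0, .ofNat 108300, .ofNat 0, .negSucc 17099⟩, ⟨.ofNat 1451220, .ofNat 0, .negSucc 151619, .ofNat 0⟩, ⟨.ofNat 0, .ofNat 72200, .ofNat 0, .negSucc 3799⟩, ⟨.ofNat 144400, .ofNat 0, .ofNat 0, .ofNat 0⟩]

def h4 : List Q4 := [⟨.ofNat 12751649208, .ofNat 0, .negSucc 47375332487, .ofNat 0⟩, ⟨.ofNat 0, .ofNat 25334402400, .ofNat 0, .negSucc 26815946399⟩, ⟨.ofNat 1253771425440, .ofNat 0, .negSucc 730193775839, .ofNat 0⟩, ⟨.ofNat 0, .ofNat 253344024000, .ofNat 0, .negSucc 95312663999⟩, ⟨.ofNat 3266261287200, .ofNat 0, .negSucc 836035279199, .ofNat 0⟩, ⟨.ofNat 0, .ofNat 218939280000, .ofNat 0, .negSucc 37861679999⟩, ⟨.ofNat 982099056000, .ofNat 0, .negSucc 106341935999, .ofNat 0⟩, ⟨.ofNat 0, .ofNat 20851360000, .ofNat 0, .negSucc 1097439999⟩, ⟨.ofNat 20851360000, .ofNat 0, .ofNat 0, .ofNat 0⟩]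

def h6 : List Q4 := [⟨.negSucc 60113715251735231, .ofNat 0, .negSucc 16611552817947647, .ofNat 0⟩, ⟨.ofNat 0, .negSucc 42033725748374399, .ofNat 0, .negSucc 16046405129721599⟩, ⟨.negSucc 1374579656013680639, .ofNat 0, .negSucc 782749187421816959, .ofNat 0⟩, ⟨.ofNat 0, .negSucc 189926103432239999, .ofNat 0, .negSucc 196440422769359999⟩, ⟨.negSucc 749766065459471999, .ofNat 0, .negSucc 3669445484065007999, .ofNat 0⟩, ⟨.ofNat 0, .ofNat 237788700926400000, .ofNat 0, .negSucc 412680525494399999⟩, ⟨.ofNat 5295168217039680000, .ofNat 0, .negSucc 3707877828804479999, .ofNat 0⟩, ⟨.ofNat 0, .ofNat 497933604504000000, .ofNat 0, .negSucc 204842718071999999⟩, ⟨.ofNat 3304653228259200000, .ofNat 0, .negSucc 886118577811199999, .ofNat 0⟩, ⟨.ofNat 0, .ofNat 124201125840000000, .ofNat 0, .negSucc 21987759119999999⟩, ⟨.ofNat 334665579081600000, .ofNat 0, .negSucc 36582877065599999, .ofNat 0⟩, ⟨.ofNat 0, .ofNat 4516404576000000,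 .ofNat 0, .negSucc 237705503999999⟩, ⟨.ofNat 3010936384000000, .ofNat 0, .ofNat 0, .ofNat 0⟩]

def nh : List Q4 := [⟨.ofNat 0, .negSucc 41292922487795999, .ofNat 0, .negSucc 4447707685343999⟩, ⟨.negSucc 3769316738454095999, .ofNat 0, .negSucc 564382335929543999, .ofNat 0⟩, ⟨.ofNat 0, .negSucc 1326678036783983999, .ofNat 0, .negSucc 269057433744575999⟩, ⟨.negSucc 30516704390582207999, .ofNat 0, .negSucc 8419366242262511999, .ofNat 0⟩, ⟨.ofNat 0, .negSucc 3829678485612335999, .ofNat 0, .negSucc 1494686504219903999⟩, ⟨.negSucc 33769641624963004799, .ofNat 0, .negSucc 20704213412492227199, .ofNat 0⟩, ⟨.ofNat 0, .negSucc 1331413486981919999, .ofNat 0, .negSucc 1769680632926879999⟩, ⟨.ofNat 1794755948838336000, .ofNat 0, .negSucc 12236728492596095999, .ofNat 0⟩, ⟨.ofNat 0, .ofNat 606666044671200000, .ofNat 0, .negSucc 523231412767199999⟩, ⟨.ofNat 4302688311463680000, .ofNat 0, .negSucc 1756791051972479999,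 .ofNat 0⟩, ⟨.ofNat 0, .ofNat 149041351008000000, .ofNat 0, .negSucc 33991887071999999⟩, ⟨.ofNat 360860725622400000, .ofNat 0, .negSucc 44712405302399999, .ofNat 0⟩, ⟨.ofNat 0, .ofNat 4516404576000000, .ofNat 0, .negSucc 237705503999999⟩, ⟨.ofNat 3010936384000000, .ofNat 0, .ofNat 0, .ofNat 0⟩]

def A : List Q4 := [⟨.ofNat 0, .ofNat 1463, .ofNat 0, .ofNat 543⟩, ⟨.ofNat 3800, .ofNat 0, .ofNat 3800, .ofNat 0⟩]

def B : List Q4 := [⟨.negSucc 101563739, .ofNat 0, .negSucc 4743539, .ofNat 0⟩, ⟨.ofNat 0, .negSucc 19093289, .ofNat 0, .negSucc 1577189⟩, ⟨.negSucc 114862979, .ofNat 0, .negSucc 15876779, .ofNat 0⟩, ⟨.ofNat 0, .negSucc 1277939, .ofNat 0, .negSucc 548339⟩, ⟨.negSucc 1443999, .ofNat 0, .negSucc 1443999, .ofNat 0⟩]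

def AM : Q4 := ⟨.negSucc 743, .ofNat 0, .ofNat 216, .ofNat 0⟩

def BM : Q4 := ⟨.ofNat 0, .ofNat 81, .ofNat 0, .negSucc 83⟩

theorem ok : Ok (114) (-19) AM BM (16) (37038600) Fl n n1 h h1 a1 a2 W W2 T1 n2 n3 h2 h4 h6 nh A B where
  k1 := by decide +kernel
  k2 := by decide +kernel
  k3 := by decide +kernel
  k4 := by decide +kernel
  k5 := by decide +kernel
  k6 := by decide +kernel
  k7 := by decide +kernel
  k8 := by decide +kernel
  k9 := by decide +kernel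
  k10 := by decide +kernel
  k11 := by decide +kernel
  k12 := by decide +kernel
  k13 := by decide +kernel
  k14 := by decide +kernel
  k15 := by decide +kernel

/-- the endomorphism `(1 + √-19) / 2` of the curve with `j = -884736` (discriminant `-19`) -/
theorem psi {O K k : Type*} [CommRing O] [IsDomain O] [Field K] [Algebra O K] [Field k]
    (S : DV O K k) {p : ℕ} [hp : Fact p.Prime] [CharP k p] (h2 : p ≠ 2) (h3 : p ≠ 3) (h5 : p ≠ 5)
    (h19 : p ≠ 19) {s r z m : O} (hs : s ^ 2 = 114) (hr : r ^ 2 = -19)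
    (hz : 32 * (1 - 2 * z) = 3 * s) (hm : 2 * m = 1 + r) :
    Dat S (cub (-3) (4 * z - 2)) (-3) (4 * z - 2) m 5 := by
  have hs' : s ^ 2 = ((114 : ℤ) : O) := by rw [hs]; norm_num
  have hr' : r ^ 2 = ((-19 : ℤ) : O) := by rw [hr]; norm_num
  have r2 := S.two_ne (p := p) h2
  have h2O : (2 : O) ≠ 0 := by intro h0; rw [h0, map_zero] at r2; exact r2 rfl
  have hm2 : 2 * m ^ 2 = -9 + r := by
    apply mul_left_cancel₀ h2O
    linear_combination (2 * m + (1 + r)) * hm + hr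
  have hm4 : 2 * m ^ 4 = 31 - 9 * r := by
    apply mul_left_cancel₀ h2O
    linear_combination (2 * m ^ 2 + (-9 + r)) * hm2 + hr
  have hm6 : m ^ 6 = -27 + 28 * r := by
    apply mul_left_cancel₀ h2O
    apply mul_left_cancel₀ h2O
    linear_combination 2 * m ^ 4 * hm2 + (-9 + r) * hm4 - 9 * hr
  have hmr : S.red m ≠ 0 := by
    refine S.ne_mul (p := p) (y := 1 - r) (n := 10) ?_ (ndvd_fac [(2, 1), (5, 1)] (by intro q hq; simp only [List.mem_cons, List.mem_nil_iff, or_false] at hq; rcases hq with rfl | rfl <;> refine ⟨by norm_num, ?_⟩ <;> assumption) (by decide +kernel))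
    apply mul_left_cancel₀ h2O
    push_cast
    linear_combination (1 - r) * hm - hr
  have hb : 16 * (4 * z - 2) = -(3 * s) := by linear_combination -hz
  refine ok.dat S (p := p) (L := 144400) (M := 380) (e := 2) hs' hr' ?_ ?_ ?_ (by decide)
    (by decide) (by norm_num) (by decide +kernel) (by decide +kernel) hmr
    (ndvd_fac [(2, 4)] (by intro q hq; simp only [List.mem_cons, List.mem_nil_iff, or_false] at hq; rcases hq with rfl <;> refine ⟨by norm_num, ?_⟩ <;> assumption) (by decide +kernel))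
    (ndvd_fac [(2, 3), (3, 3), (5, 2), (19, 3)] (by intro q hq; simp only [List.mem_cons, List.mem_nil_iff, or_false] at hq; rcases hq with rfl | rfl | rfl | rfl <;> refine ⟨by norm_num, ?_⟩ <;> assumption) (by decide +kernel))
    (ndvd_fac [(2, 4), (5, 2), (19, 2)] (by intro q hq; simp only [List.mem_cons, List.mem_nil_iff, or_false] at hq; rcases hq with rfl | rfl | rfl <;> refine ⟨by norm_num, ?_⟩ <;> assumption) (by decide +kernel))
    (ndvd_fac [(2, 2), (5, 1), (19, 1)] (by intro q hq; simp only [List.mem_cons, List.mem_nil_iff, or_false] at hq; rcases hq with rfl | rfl | rfl <;> refine ⟨by norm_num, ?_⟩ <;> assumption) (by decide +kernel))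
  · have e1 : C (16 * (4 * z - 2)) = C (-(3 * s)) := by rw [hb]
    simp only [Fl, ev, e4, cub]
    push_cast
    simp only [C_mul, C_add, C_sub, C_neg, map_ofNat, C_1, C_0] at e1 ⊢
    linear_combination (-1 : O[X]) * e1
  · simp only [AM, e4]; push_cast
    linear_combination 24 * hm4
  · simp only [BM, e4]; push_cast
    linear_combination (-(m ^ 6)) * hb + 3 * s * hm6

end Pool.Agent.H888.L1I.I19
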