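import Pool.Agent.H888.L1I.B75b

set_option autoImplicit false

/-!
# The binomial coefficient `C((p-1)/2, (p-1)/3)` and `p = x² + 3y²`
-/

namespace Pool.Agent.H888.L1I

open Finset

section cs

variable (p : ℕ) [hp : Fact p.Prime]

theorem sum_gen (f : ZMod p → ℤ) (g : (ZMod p)ˣ) (hg : ∀ x, x ∈ Subgroup.zpowers g) :
    ∑ n : ZMod p, f n = f 0 + ∑ m ∈ range (p - 1), f ((g : ZMod p) ^ m) := by
  have ho : orderOf g = p - 1 := by
    rw [orderOf_eq_card_of_forall_mem_zpowers hg, Nat.card_eq_fintype_card, ZMod.card_units]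
  rw [← Finset.add_sum_erase _ _ (mem_univ (0 : ZMod p))]
  congr 1
  have himg : (univ : Finset (ZMod p)).erase 0 = (range (p - 1)).image fun m => (g : ZMod p) ^ m := by
    ext n
    simp only [mem_erase, mem_univ, and_true, mem_image, mem_range]
    constructor
    · intro hn
      have h1 := hg (Units.mk0 n hn)
      rw [mem_zpowers_iff_mem_range_orderOf, ho] at h1
      obtain ⟨m, hm, hm2⟩ := mem_image.mp h1
      refine ⟨m, mem_range.mp hm, ?_⟩
      have := congrArg (fun y : (ZMod p)ˣ => (y : ZMod p)) hm2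
      simpa using this
    · rintro ⟨m, _, rfl⟩
      exact pow_ne_zero m g.ne_zero
  rw [himg, Finset.sum_image]
  intro a ha b hb hab
  have h1 : g ^ a = g ^ b := Units.ext (by push_cast; exact hab)
  have ha' : a < orderOf g := by rw [ho]; simpa using ha
  have hb' : b < orderOf g := by rw [ho]; simpa using hb
  exact pow_injOn_Iio_orderOf (Set.mem_Iio.mpr ha') (Set.mem_Iio.mpr hb') h1

omit hp in
theorem sum_per (F : ℕ → ℤ) (hF : ∀ m, F (m + 3) = F m) (j : ℕ) :
    ∑ m ∈ range (3 * j), F m = j * (F 0 + F 1 + F 2) := by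
  have h : ∀ j, F (3 * j) = F 0 ∧ F (3 * j + 1) = F 1 ∧ F (3 * j + 2) = F 2 := by
    intro j
    induction j with
    | zero => simp
    | succ j ih =>
      refine ⟨?_, ?_, ?_⟩
      · rw [show 3 * (j + 1) = 3 * j + 3 by ring, hF]; exact ih.1
      · rw [show 3 * (j + 1) + 1 = (3 * j + 1) + 3 by ring, hF]; exact ih.2.1
      · rw [show 3 * (j + 1) + 2 = (3 * j + 2) + 3 by ring, hF]; exact ih.2.2
  induction j with
  | zero => simp
  | succ j ih =>
    rw [show 3 * (j + 1) = 3 * j + 1 + 1 + 1 by ring, sum_range_succ, sum_range_succ, sum_range_succ, ih]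
    obtain ⟨h0, h1, h2⟩ := h j
    rw [h0, h1, show 3 * j + 1 + 1 = 3 * j + 2 by ring, h2]
    push_cast
    ring

variable (hp2 : p ≠ 2)

include hp2

theorem norm_form (h3 : p % 3 = 1) : ∃ b : ℤ, T p 1 ^ 2 + T p 1 * b + b ^ 2 = 3 * p := by
  obtain ⟨g, hg⟩ := IsCyclic.exists_generator (α := (ZMod p)ˣ)
  set G : ℕ → ℤ := fun m => quadraticChar (ZMod p) ((g : ZMod p) ^ m) * T p ((g : ZMod p) ^ m) with hG
  have hg0 : (g : ZMod p) ≠ 0 := g.ne_zero
  have hper : ∀ m, G (m + 3) = G m := by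
    intro m
    simp only [hG]
    have e3 : quadraticChar (ZMod p) ((g : ZMod p) ^ 3) = quadraticChar (ZMod p) (g : ZMod p) ^ 3 := map_pow _ _ _
    rw [pow_add, T_mul p _ _ hg0, map_mul, e3]
    have h1 := quadraticChar_sq_one hg0
    linear_combination (quadraticChar (ZMod p) ((g : ZMod p) ^ m) * T p ((g : ZMod p) ^ m) *
      (quadraticChar (ZMod p) (g : ZMod p) ^ 2 + 1)) * h1
  obtain ⟨j, hj⟩ : ∃ j, p - 1 = 3 * j := ⟨(p - 1) / 3, by omega⟩
  have hp1 := hp.out.one_lt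
  have hj0 : (j : ℤ) ≠ 0 := by
    have : j ≠ 0 := by rintro rfl; omega
    exact_mod_cast this
  have hpj : (p : ℤ) = 3 * j + 1 := by omega
  have e1 := sum_gen p (fun n => quadraticChar (ZMod p) n * T p n) g hg
  rw [sum_chi p hp2, hj] at e1
  have e2 := sum_per G hper j
  have e3 : ∑ m ∈ range (3 * j), quadraticChar (ZMod p) ((g : ZMod p) ^ m) * T p ((g : ZMod p) ^ m) =
      ∑ m ∈ range (3 * j), G m := rfl
  simp only [T_zero p hp2, mul_zero, zero_add] at e1
  rw [e3, e2] at e1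
  have hlin : G 0 + G 1 + G 2 = 0 := by
    rcases mul_eq_zero.mp e1.symm with h | h
    · exact absurd h hj0
    · exact h
  have f1 := sum_gen p (fun n => T p n ^ 2) g hg
  rw [sum_sq p hp2 h3, hj] at f1
  have f2 := sum_per (fun m => G m ^ 2) (fun m => by simp only [hper]) j
  have f3 : ∑ m ∈ range (3 * j), T p ((g : ZMod p) ^ m) ^ 2 = ∑ m ∈ range (3 * j), G m ^ 2 := by
    refine Finset.sum_congr rfl fun m _ => ?_
    simp only [hG]
    rw [mul_pow, quadraticChar_sq_one (pow_ne_zero m hg0), one_mul]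
  simp only [T_zero p hp2] at f1
  rw [f3, f2] at f1
  have hq : G 0 ^ 2 + G 1 ^ 2 + G 2 ^ 2 = 6 * p := by
    apply mul_left_cancel₀ hj0
    rw [hpj] at f1 ⊢
    linear_combination -f1
  have hG0 : G 0 = T p 1 := by simp [hG]
  refine ⟨G 1, ?_⟩
  rw [← hG0]
  have : G 2 = -G 0 - G 1 := by linarith
  rw [this] at hq
  linarith [hq, show G 0 ^ 2 + G 1 ^ 2 + (-G 0 - G 1) ^ 2 = 2 * (G 0 ^ 2 + G 0 * G 1 + G 1 ^ 2) by ring]

theorem T_even (h3 : p % 3 = 1) : (2 : ℤ) ∣ T p 1 := by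
  have h1 : ∀ v : ZMod p, (2 : ℤ) ∣ quadraticChar (ZMod p) v - (1 - (if v = 0 then 1 else 0)) := by
    intro v
    by_cases hv : v = 0
    · subst hv; simp
    · rw [if_neg hv]
      rcases quadraticChar_dichotomy hv with h | h <;> rw [h] <;> norm_num
  have h2 : (2 : ℤ) ∣ ∑ u : ZMod p, (quadraticChar (ZMod p) (u ^ 3 + 1) - (1 - (if u ^ 3 + 1 = 0 then 1 else 0))) :=
    Finset.dvd_sum fun u _ => h1 _
  rw [Finset.sum_sub_distrib, Finset.sum_sub_distrib] at h2
  have h4 : ∑ u : ZMod p, (if u ^ 3 + 1 = 0 then (1 : ℤ) else 0) = 3 := by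
    have h5 := count p h3 (-1)
    rw [if_neg (neg_ne_zero.mpr one_ne_zero)] at h5
    rw [← h5]
    refine Finset.sum_congr rfl fun u _ => ?_
    have : u ^ 3 + 1 = 0 ↔ (-1 : ZMod p) ^ 3 = u ^ 3 := by
      constructor
      · intro h; linear_combination -h
      · intro h; linear_combination -h
    simp only [this]
  rw [h4] at h2
  have h5 : ∑ _u : ZMod p, (1 : ℤ) = p := by simp [ZMod.card]
  rw [h5] at h2
  have hodd : p % 2 = 1 := by
    rcases hp.out.eq_two_or_odd with h | h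
    · exact absurd h hp2
    · exact h
  have h6 : T p 1 = ∑ u : ZMod p, quadraticChar (ZMod p) (u ^ 3 + 1) := rfl
  rw [← h6] at h2
  omega

theorem T_form (h3 : p % 3 = 1) : ∃ a b : ℤ, T p 1 = 2 * a ∧ (p : ℤ) = a ^ 2 + 3 * b ^ 2 := by
  obtain ⟨b, hb⟩ := norm_form p hp2 h3
  obtain ⟨a, ha⟩ := T_even p hp2 h3
  rw [ha] at hb
  have h1 : (b + a) ^ 2 + 3 * a ^ 2 = 3 * p := by linear_combination hb
  have h2 : (3 : ℤ) ∣ b + a := by
    have : (3 : ℤ) ∣ (b + a) ^ 2 := ⟨p - a ^ 2, by linear_combination h1⟩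
    exact Int.prime_three.dvd_of_dvd_pow this
  obtain ⟨c, hc⟩ := h2
  refine ⟨a, c, ha, ?_⟩
  rw [hc] at h1
  linarith [show (3 * c) ^ 2 = 9 * c ^ 2 by ring]

theorem T_mod (h3 : p % 3 = 1) :
    ((T p 1 : ℤ) : ZMod p) = -((((p - 1) / 2).choose ((p - 1) / 3) : ℕ) : ZMod p) := by
  have hodd : p % 2 = 1 := by
    rcases hp.out.eq_two_or_odd with h | h
    · exact absurd h hp2
    · exact h
  have hp1 := hp.out.one_lt
  obtain ⟨t, ht⟩ : ∃ t, p = 6 * t + 1 := ⟨p / 6, by omega⟩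
  have e1 : (p - 1) / 2 = 3 * t := by omega
  have e2 : (p - 1) / 3 = 2 * t := by omega
  have e5 : p / 2 = 3 * t := by omega
  have htpos : 0 < t := by omega
  rw [e1, e2, T]
  push_cast
  have h1 : ∀ u : ZMod p, ((quadraticChar (ZMod p) (u ^ 3 + 1) : ℤ) : ZMod p) =
      ∑ j ∈ range (3 * t + 1), (((3 * t).choose j : ℕ) : ZMod p) * u ^ (3 * j) := by
    intro u
    rw [quadraticChar_eq_pow_of_char_ne_two' (rc p hp2), ZMod.card, e5, add_pow]
    refine Finset.sum_congr rfl fun j _ => ?_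
    rw [one_pow, mul_one, ← pow_mul, mul_comm]
  rw [Finset.sum_congr rfl fun u _ => h1 u, Finset.sum_comm]
  have h2 : ∀ j ∈ range (3 * t + 1), ∑ u : ZMod p, (((3 * t).choose j : ℕ) : ZMod p) * u ^ (3 * j) =
      if j = 2 * t then -((((3 * t).choose j : ℕ)) : ZMod p) else 0 := by
    intro j hj
    have hj' := mem_range.mp hj
    rw [← Finset.mul_sum]
    rcases lt_trichotomy j (2 * t) with h | h | h
    · rw [if_neg (by omega), FiniteField.sum_pow_lt_card_sub_one, mul_zero]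
      rw [ZMod.card]; omega
    · rw [if_pos h]
      have : ∀ u : ZMod p, u ^ (3 * j) = 1 - (if u = 0 then 1 else 0) := by
        intro u
        by_cases hu : u = 0
        · subst hu
          rw [if_pos rfl, zero_pow (by omega)]; ring
        · rw [if_neg hu, show 3 * j = p - 1 by omega, ZMod.pow_card_sub_one_eq_one hu, sub_zero]
      rw [Finset.sum_congr rfl fun u _ => this u, Finset.sum_sub_distrib]
      simp [ZMod.card]
    · rw [if_neg (by omega)]
      have : ∀ u : ZMod p, u ^ (3 * j) = u ^ (3 * j - p + 1) := by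
        intro u
        have h5 : 3 * j = p + (3 * j - p) := by omega
        conv_lhs => rw [h5, pow_add, ZMod.pow_card]
        rw [pow_succ]; ring
      rw [Finset.sum_congr rfl fun u _ => this u, FiniteField.sum_pow_lt_card_sub_one, mul_zero]
      rw [ZMod.card]; omega
  rw [Finset.sum_congr rfl h2, Finset.sum_ite_eq' (range (3 * t + 1)) (2 * t)
    (fun j => -((((3 * t).choose j : ℕ)) : ZMod p)), if_pos (mem_range.mpr (by omega))]

omit hp hp2 in
theorem repr_unique {q : ℕ} (hq : q.Prime) {x y a b : ℤ} (h1 : (q : ℤ) = x ^ 2 + 3 * y ^ 2)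
    (h2 : (q : ℤ) = a ^ 2 + 3 * b ^ 2) : a ^ 2 = x ^ 2 := by
  have hqz : Prime (q : ℤ) := Nat.prime_iff_prime_int.mp hq
  have hq0 : (0 : ℤ) < q := by exact_mod_cast hq.pos
  have hd : (q : ℤ) ∣ (x * b - y * a) * (x * b + y * a) := ⟨b ^ 2 - y ^ 2, by
    have : (x * b - y * a) * (x * b + y * a) = (q : ℤ) * b ^ 2 - (q : ℤ) * y ^ 2 := by
      calc (x * b - y * a) * (x * b + y * a) = (x ^ 2 + 3 * y ^ 2) * b ^ 2 - (a ^ 2 + 3 * b ^ 2) * y ^ 2 := by ring
        _ = _ := by rw [← h1, ← h2]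
    rw [this]; ring⟩
  have key : ∀ c d : ℤ, c ^ 2 + 3 * d ^ 2 = (q : ℤ) ^ 2 → (q : ℤ) ∣ d → d = 0 := by
    rintro c d h ⟨e, rfl⟩
    by_contra h0
    have he : e ≠ 0 := by rintro rfl; simp at h0
    have he2 : 1 ≤ e ^ 2 := by
      have := sq_nonneg e
      have : e ^ 2 ≠ 0 := pow_ne_zero 2 he
      omega
    nlinarith [sq_nonneg c, mul_pos hq0 hq0]
  have hz : (x * b - y * a) * (x * b + y * a) = 0 := by
    rcases hqz.dvd_or_dvd hd with h | h
    · have := key (x * a + 3 * y * b) (x * b - y * a) (by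
        calc (x * a + 3 * y * b) ^ 2 + 3 * (x * b - y * a) ^ 2 = (x ^ 2 + 3 * y ^ 2) * (a ^ 2 + 3 * b ^ 2) := by ring
          _ = _ := by rw [← h1, ← h2]; ring) h
      rw [this, zero_mul]
    · have := key (x * a - 3 * y * b) (x * b + y * a) (by
        calc (x * a - 3 * y * b) ^ 2 + 3 * (x * b + y * a) ^ 2 = (x ^ 2 + 3 * y ^ 2) * (a ^ 2 + 3 * b ^ 2) := by ring
          _ = _ := by rw [← h1, ← h2]; ring) h
      rw [this, mul_zero]
  have hb : b ^ 2 = y ^ 2 := by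
    have : (q : ℤ) * (b ^ 2 - y ^ 2) = 0 := by
      have e : (x * b - y * a) * (x * b + y * a) = (q : ℤ) * b ^ 2 - (q : ℤ) * y ^ 2 := by
        calc (x * b - y * a) * (x * b + y * a) = (x ^ 2 + 3 * y ^ 2) * b ^ 2 - (a ^ 2 + 3 * b ^ 2) * y ^ 2 := by ring
          _ = _ := by rw [← h1, ← h2]
      rw [hz] at e
      linarith [e, mul_sub (q : ℤ) (b ^ 2) (y ^ 2)]
    rcases mul_eq_zero.mp this with h | h
    · omega
    · linarith
  rw [hb] at h2
  linarith

/-- the binomial coefficient modulo `p` -/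
theorem choose_sq (h3 : p % 3 = 1) {x y : ℤ} (hxy : (p : ℤ) = x ^ 2 + 3 * y ^ 2) :
    ((((p - 1) / 2).choose ((p - 1) / 3) : ℕ) : ZMod p) ^ 2 = 4 * (x : ZMod p) ^ 2 := by
  obtain ⟨a, b, ha, hab⟩ := T_form p hp2 h3
  have h1 := T_mod p hp2 h3
  have h2 := repr_unique hp.out hxy hab
  have h4 : ((((p - 1) / 2).choose ((p - 1) / 3) : ℕ) : ZMod p) = -((T p 1 : ℤ) : ZMod p) := by rw [h1, neg_neg]
  rw [h4, ha]
  have h5 : (a : ZMod p) ^ 2 = (x : ZMod p) ^ 2 := by exact_mod_cast congrArg (Int.cast : ℤ → ZMod p) h2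
  push_cast
  linear_combination 4 * h5

end cs

end Pool.Agent.H888.L1I
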