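import Pool.Agent.H888.L1I.B75a
import Pool.Agent.H888.L1I.B75c

set_option autoImplicit false

/-!
# The square of the Legendre value with discriminant `-75` modulo `p`
-/

namespace Pool.Agent.H888.L1I

open Pool.Agent.H546

theorem partB {k : Type*} [Field k] {p : ℕ} [hp : Fact p.Prime] [CharP k p] (h31 : p % 3 = 1) (h5 : 5 < p)
    (x y : ℤ) (hxy : (p : ℤ) = x ^ 2 + 3 * y ^ 2) {s z : k} (hs' : s ^ 2 = 5) (hz : 40 * z = 20 - 9 * s) :
    (lg (p / 3) z) ^ 2 = 4 * (x : k) ^ 2 * 10 ^ ((p - 1) / 3) := by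
  have hp2 : p ≠ 2 := by omega
  have hp3 : p ≠ 3 := by omega
  have hp5 : p ≠ 5 := by omega
  have hodd : p % 2 = 1 := by
    rcases hp.out.eq_two_or_odd with h | h
    · exact absurd h hp2
    · exact h
  have nz : ∀ {n : ℤ}, ¬ (p : ℤ) ∣ n → (n : k) ≠ 0 := fun {n} h h0 => h ((CharP.intCast_eq_zero_iff k p n).mp h0)
  have n2 : (2 : k) ≠ 0 := by
    have := nz (n := 2) (ndvd_fac [(2, 1)] (by simp; exact ⟨by norm_num, hp2⟩) (by norm_num))
    exact_mod_cast this
  have n5 : (5 : k) ≠ 0 := by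
    have := nz (n := 5) (ndvd_fac [(5, 1)] (by simp; exact ⟨by norm_num, hp5⟩) (by norm_num))
    exact_mod_cast this
  have n4 : (4 : k) ≠ 0 := by
    have : (4 : k) = 2 * 2 := by norm_num
    rw [this]; exact mul_ne_zero n2 n2
  obtain ⟨c, hc⟩ : ∃ c : k, 4 * c = 625 := ⟨625 / 4, by field_simp⟩
  rw [hasse75 hp2 hp3 hp5 hs' hz hc, coeff_c hp2 h31, mul_pow]
  -- the binomial coefficient
  have h1 := congrArg (ZMod.castHom (dvd_refl p) k) (choose_sq p hp2 h31 hxy)
  rw [map_pow, map_mul, map_pow, map_natCast, map_intCast, map_ofNat] at h1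
  rw [h1]
  -- the constant
  obtain ⟨t, ht⟩ : ∃ t, p = 6 * t + 1 := ⟨p / 6, by omega⟩
  have e2 : (p - 1) / 3 = 2 * t := by omega
  have e3 : (p - 1) / 6 = t := by omega
  have hfr : ∀ v : ℤ, ¬ (p : ℤ) ∣ v → (v : k) ^ (p - 1) = 1 := by
    intro v hv
    have h2 : (v : ZMod p) ≠ 0 := fun h0 => hv ((ZMod.intCast_zmod_eq_zero_iff_dvd v p).mp h0)
    have h3 := congrArg (ZMod.castHom (dvd_refl p) k) (ZMod.pow_card_sub_one_eq_one h2)
    rwa [map_pow, map_intCast, map_one] at h3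
  have f5 := hfr 5 (ndvd_fac [(5, 1)] (by simp; exact ⟨by norm_num, hp5⟩) (by norm_num))
  have f2 := hfr 2 (ndvd_fac [(2, 1)] (by simp; exact ⟨by norm_num, hp2⟩) (by norm_num))
  rw [e2, e3]
  have e6 : p - 1 = 6 * t := by omega
  rw [e6] at f5 f2
  push_cast at f5 f2
  have hcc : 8 * c = 10 * 125 := by linear_combination 2 * hc
  have hpw := congrArg (fun w : k => w ^ (2 * t)) hcc
  simp only [mul_pow] at hpw
  have e8 : (8 : k) ^ (2 * t) = 1 := by
    have : (8 : k) = 2 ^ 3 := by norm_num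
    rw [this, ← pow_mul, show 3 * (2 * t) = 6 * t by ring]; exact f2
  have e125 : (125 : k) ^ (2 * t) = 1 := by
    have : (125 : k) = 5 ^ 3 := by norm_num
    rw [this, ← pow_mul, show 3 * (2 * t) = 6 * t by ring]; exact f5
  rw [e8, e125, one_mul, mul_one] at hpw
  rw [← pow_mul, show t * 2 = 2 * t by ring, hpw]

end Pool.Agent.H888.L1I
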