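import Pool.Agent.H888.L1I.I75

set_option autoImplicit false

/-!
# The Hasse invariant of the curve with discriminant `-75`
-/

namespace Pool.Agent.H888.L1I

open Polynomial Pool.Agent.H546

variable {k : Type*} [Field k] {p : ℕ} [hp : Fact p.Prime] [CharP k p]

theorem hasse75 (h2 : p ≠ 2) (h3 : p ≠ 3) (h5 : p ≠ 5) {s z c : k} (hs' : s ^ 2 = 5) (hz : 40 * z = 20 - 9 * s)
    (hc : 4 * c = 625) :
    lg (p / 3) z = ((X ^ 3 + C c : k[X]) ^ ((p - 1) / 2)).coeff (p - 1) := by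
  rw [← hs_lg h2 h3 z]
  have nz : ∀ {n : ℤ}, ¬ (p : ℤ) ∣ n → (n : k) ≠ 0 := fun {n} h h0 => h ((CharP.intCast_eq_zero_iff k p n).mp h0)
  have n2 : (2 : k) ≠ 0 := by
    have := nz (n := 2) (ndvd_fac [(2, 1)] (by simp; exact ⟨by norm_num, h2⟩) (by norm_num))
    exact_mod_cast this
  have n5 : (5 : k) ≠ 0 := by
    have := nz (n := 5) (ndvd_fac [(5, 1)] (by simp; exact ⟨by norm_num, h5⟩) (by norm_num))
    exact_mod_cast this
  have n3 : (3 : k) ≠ 0 := by
    have := nz (n := 3) (ndvd_fac [(3, 1)] (by simp; exact ⟨by norm_num, h3⟩) (by norm_num))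
    exact_mod_cast this
  have n4 : (4 : k) ≠ 0 := by
    have : (4 : k) = 2 * 2 := by norm_num
    rw [this]; exact mul_ne_zero n2 n2
  have n20 : ((20 : ℤ) : k) ≠ 0 := by
    have : ((20 : ℤ) : k) = 2 * 2 * 5 := by norm_num
    rw [this]; exact mul_ne_zero (mul_ne_zero n2 n2) n5
  have hs5 : s ^ 2 = ((5 : ℤ) : k) := by rw [hs']; norm_num
  have hr1 : (1 : k) ^ 2 = ((1 : ℤ) : k) := by norm_num
  have hA : 10 * (4 * z) = 20 - 9 * s := by linear_combination hz
  have ea : 20 * ca (4 * z) = -300 - 108 * s := by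
    unfold ca; linear_combination 12 * hA
  have eb : 20 * cb (4 * z) = 521 + 252 * s := by
    apply mul_left_cancel₀ n5
    unfold cb
    linear_combination (10 * (4 * z) + 20 - 9 * s - 180) * hA + 81 * hs'
  have hF : ev s 1 I75.Fl = C ((20 : ℤ) : k) * cub (ca (4 * z)) (cb (4 * z)) := by
    have e1 : C (20 * cb (4 * z)) = C (521 + 252 * s) := by rw [eb]
    have e2 : C (20 * ca (4 * z)) = C (-300 - 108 * s) := by rw [ea]
    simp only [I75.Fl, ev, e4, cub]
    push_cast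
    simp only [C_mul, C_add, C_sub, C_neg, map_ofNat, C_1, C_0] at e1 e2 ⊢
    linear_combination (-1 : k[X]) * e1 - X * e2
  have ode := I75.ok.ode hs5 hr1 (a := 0) (b := c) (m := 1) n20 hF (by simp [I75.AM, e4])
    (by simp only [I75.BM, e4]; push_cast; linear_combination (-5) * hc)
  refine hasse_wc h2 (n := ev s 1 I75.n) (d := ev s 1 I75.h ^ 2) ?_ ?_ ?_ ?_
  · rw [ev_lev, Q4.eq_of_beq I75.lev_n, e4_z0]
  · rw [eval_pow]
    refine pow_ne_zero 2 ?_
    intro h0
    have e := congrArg (e4 s (1 : k)) (Q4.eq_of_beq I75.lev_h)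
    rw [e4_mul hs5 hr1, ← ev_lev, h0, zero_mul, e4_qi] at e
    have : ((-20 : ℤ) : k) ≠ 0 := by
      have h1 : ((-20 : ℤ) : k) = -((20 : ℤ) : k) := by norm_num
      rw [h1]; exact neg_ne_zero.mpr n20
    exact this e.symm
  · intro h0
    rw [h0, mul_zero] at hc
    have : (625 : k) = 5 * 5 * 5 * 5 := by norm_num
    rw [this] at hc
    exact mul_ne_zero (mul_ne_zero (mul_ne_zero n5 n5) n5) n5 hc.symm
  · have e1 : wr (ev s 1 I75.n) (ev s 1 I75.h ^ 2) = ev s 1 I75.h *
        (derivative (ev s 1 I75.n) * ev s 1 I75.h - 2 * ev s 1 I75.n * derivative (ev s 1 I75.h)) := by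
      simp only [wr, derivative_pow]
      push_cast
      simp only [map_ofNat]
      ring
    rw [e1]
    simp only [zero_mul, one_pow, mul_one, C_0, C_1, add_zero] at ode
    linear_combination (ev s 1 I75.h ^ 2) * ode

/-- the coefficient of `(X³+c)^((p-1)/2)` -/
theorem coeff_c (h2 : p ≠ 2) (h31 : p % 3 = 1) (c : k) :
    ((X ^ 3 + C c : k[X]) ^ ((p - 1) / 2)).coeff (p - 1) =
      (((p - 1) / 2).choose ((p - 1) / 3) : k) * c ^ ((p - 1) / 6) := by
  have hodd : p % 2 = 1 := by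
    rcases hp.out.eq_two_or_odd with h | h
    · exact absurd h h2
    · exact h
  have hp1 := hp.out.one_lt
  obtain ⟨t, ht⟩ : ∃ t, p = 6 * t + 1 := ⟨p / 6, by omega⟩
  have e1 : (p - 1) / 2 = 3 * t := by omega
  have e2 : (p - 1) / 3 = 2 * t := by omega
  have e3 : (p - 1) / 6 = t := by omega
  have e4' : p - 1 = 3 * (2 * t) := by omega
  rw [e1, e2, e3, e4', add_pow, finset_sum_coeff]
  rw [Finset.sum_eq_single (2 * t)]
  · rw [← pow_mul, ← C_pow, coeff_mul_natCast, coeff_mul_C, coeff_X_pow, if_pos rfl,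
      show 3 * t - 2 * t = t by omega]
    ring
  · intro j _ hj
    rw [← pow_mul, ← C_pow, coeff_mul_natCast, coeff_mul_C, coeff_X_pow, if_neg (by omega), zero_mul, zero_mul]
  · intro h
    exact absurd (Finset.mem_range.mpr (by omega)) h

end Pool.Agent.H888.L1I
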