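import Mathlib

set_option autoImplicit false

/-!
# The character sums `∑ χ(u³+n)` and the binomial coefficient `C((p-1)/2, (p-1)/3)`
-/

namespace Pool.Agent.H888.L1I

open Finset

section cs

variable (p : ℕ) [hp : Fact p.Prime]

/-- the character sum -/
noncomputable def T (n : ZMod p) : ℤ := ∑ u : ZMod p, quadraticChar (ZMod p) (u ^ 3 + n)

theorem T_mul (n t : ZMod p) (ht : t ≠ 0) : T p (n * t ^ 3) = quadraticChar (ZMod p) t * T p n := by
  unfold T
  rw [← Equiv.sum_comp (Equiv.mulLeft₀ t ht) (fun u => quadraticChar (ZMod p) (u ^ 3 + n * t ^ 3)), Finset.mul_sum]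
  refine Finset.sum_congr rfl fun u _ => ?_
  have e : (t * u) ^ 3 + n * t ^ 3 = t ^ 2 * (t * (u ^ 3 + n)) := by ring
  change quadraticChar (ZMod p) ((t * u) ^ 3 + n * t ^ 3) = _
  rw [e, map_mul, map_mul, map_pow, quadraticChar_sq_one ht, one_mul]

variable (hp2 : p ≠ 2)

include hp2

theorem rc : ringChar (ZMod p) ≠ 2 := by rw [ZMod.ringChar_zmod_n]; exact hp2

theorem corr0 (c : ZMod p) (hc : c ≠ 0) :
    ∑ n : ZMod p, quadraticChar (ZMod p) n * quadraticChar (ZMod p) (n + c) = -1 := by
  have h1 : ∀ m : ZMod p, quadraticChar (ZMod p) m⁻¹ * quadraticChar (ZMod p) (m⁻¹ + c) =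
      quadraticChar (ZMod p) (1 + c * m) - (if m = 0 then 1 else 0) := by
    intro m
    by_cases hm : m = 0
    · subst hm
      simp
    · rw [if_neg hm, sub_zero, ← map_mul]
      have e : m⁻¹ * (m⁻¹ + c) = (m⁻¹) ^ 2 * (1 + c * m) := by field_simp
      rw [e, map_mul, map_pow, quadraticChar_sq_one (inv_ne_zero hm), one_mul]
  rw [← Equiv.sum_comp (Equiv.inv (ZMod p)) (fun n => quadraticChar (ZMod p) n * quadraticChar (ZMod p) (n + c))]
  simp only [Equiv.inv_apply]
  rw [Finset.sum_congr rfl fun m _ => h1 m, Finset.sum_sub_distrib]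
  have h2 : ∑ m : ZMod p, quadraticChar (ZMod p) (1 + c * m) = 0 := by
    have := Equiv.sum_comp ((Equiv.mulLeft₀ c hc).trans (Equiv.addLeft 1)) (fun m => quadraticChar (ZMod p) m)
    rw [quadraticChar_sum_zero (rc p hp2)] at this
    exact this
  rw [h2]
  simp

theorem corr1 (a b : ZMod p) :
    ∑ n : ZMod p, quadraticChar (ZMod p) (a + n) * quadraticChar (ZMod p) (b + n) =
      (if a = b then (p : ℤ) else 0) - 1 := by
  rw [← Equiv.sum_comp (Equiv.subRight a) (fun n => quadraticChar (ZMod p) (a + n) * quadraticChar (ZMod p) (b + n))]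
  simp only [Equiv.subRight_apply]
  have h1 : ∀ n : ZMod p, quadraticChar (ZMod p) (a + (n - a)) * quadraticChar (ZMod p) (b + (n - a)) =
      quadraticChar (ZMod p) n * quadraticChar (ZMod p) (n + (b - a)) := by
    intro n
    rw [show a + (n - a) = n by ring, show b + (n - a) = n + (b - a) by ring]
  rw [Finset.sum_congr rfl fun n _ => h1 n]
  by_cases hab : a = b
  · subst hab
    rw [if_pos rfl, sub_self]
    have h2 : ∀ n : ZMod p, quadraticChar (ZMod p) n * quadraticChar (ZMod p) (n + 0) =
        1 - (if n = 0 then 1 else 0) := by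
      intro n
      rw [add_zero]
      by_cases hn : n = 0
      · subst hn; simp
      · rw [if_neg hn, ← pow_two, quadraticChar_sq_one hn, sub_zero]
    rw [Finset.sum_congr rfl fun n _ => h2 n, Finset.sum_sub_distrib]
    simp [ZMod.card]
  · rw [if_neg hab, corr0 p hp2 _ (sub_ne_zero.mpr (Ne.symm hab))]
    ring

omit hp2 in
theorem exists_w (h3 : p % 3 = 1) : ∃ w : ZMod p, w ≠ 0 ∧ w ≠ 1 ∧ w ^ 2 + w + 1 = 0 := by
  have : Fact (Nat.Prime 3) := ⟨by norm_num⟩
  have hc : 3 ∣ Fintype.card (ZMod p)ˣ := by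
    rw [ZMod.card_units]
    have := hp.out.one_lt
    omega
  obtain ⟨x, hx⟩ := exists_prime_orderOf_dvd_card 3 hc
  refine ⟨x, x.ne_zero, ?_, ?_⟩
  · intro h
    have : x = 1 := Units.ext h
    rw [this, orderOf_one] at hx
    norm_num at hx
  · have h1 : x ^ 3 = 1 := by rw [← hx]; exact pow_orderOf_eq_one x
    have h2 : (x : ZMod p) ^ 3 = 1 := by
      have := congrArg (fun y : (ZMod p)ˣ => (y : ZMod p)) h1
      simpa using this
    have h3 : (x : ZMod p) - 1 ≠ 0 := by
      intro h0
      have : x = 1 := Units.ext (by rw [Units.val_one]; exact sub_eq_zero.mp h0)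
      rw [this, orderOf_one] at hx
      norm_num at hx
    apply mul_left_cancel₀ h3
    linear_combination h2

omit hp2 in
theorem count (h3 : p % 3 = 1) (u : ZMod p) :
    ∑ v : ZMod p, (if u ^ 3 = v ^ 3 then (1 : ℤ) else 0) = if u = 0 then 1 else 3 := by
  obtain ⟨w, hw0, hw1, hw⟩ := exists_w p h3
  rw [← Finset.sum_filter, Finset.sum_const, nsmul_eq_mul, mul_one]
  by_cases hu : u = 0
  · subst hu
    rw [if_pos rfl]
    have : (univ.filter fun v : ZMod p => (0 : ZMod p) ^ 3 = v ^ 3) = {0} := by
      ext v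
      simp only [mem_filter, mem_univ, true_and, mem_singleton]
      constructor
      · intro h
        have : v ^ 3 = 0 := by rw [← h]; ring
        exact pow_eq_zero_iff (by norm_num) |>.mp this
      · rintro rfl; rfl
    rw [this]; simp
  · rw [if_neg hu]
    have hww : w ^ 2 ≠ 1 := by
      intro h
      have h1 : w = -2 := by linear_combination hw - h
      have h2 : (3 : ZMod p) = 0 := by
        rw [h1] at h
        linear_combination h
      have h4 : ((3 : ℕ) : ZMod p) = 0 := by exact_mod_cast h2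
      rw [ZMod.natCast_eq_zero_iff] at h4
      have := Nat.le_of_dvd (by norm_num) h4
      have := hp.out.two_le
      interval_cases p <;> omega
    have hw2 : w ^ 2 ≠ w := by
      intro h
      have : w * (w - 1) = 0 := by linear_combination h
      rcases mul_eq_zero.mp this with h' | h'
      · exact hw0 h'
      · exact hw1 (sub_eq_zero.mp h')
    have : (univ.filter fun v : ZMod p => u ^ 3 = v ^ 3) = {u, w * u, w ^ 2 * u} := by
      ext v
      simp only [mem_filter, mem_univ, true_and, mem_insert, mem_singleton]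
      constructor
      · intro h
        have h1 : (v - u) * ((v - w * u) * (v - w ^ 2 * u)) = 0 := by
          linear_combination (-1 : ZMod p) * h + (-(u * v ^ 2) + (w + 1) * 0 + u ^ 2 * v * w ^ 1 * 0) * hw +
            (u ^ 2 * v * w - u ^ 3 * (w - 1)) * hw
        rcases mul_eq_zero.mp h1 with h' | h'
        · exact Or.inl (sub_eq_zero.mp h')
        · rcases mul_eq_zero.mp h' with h'' | h''
          · exact Or.inr (Or.inl (sub_eq_zero.mp h''))
          · exact Or.inr (Or.inr (sub_eq_zero.mp h''))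
      · have hw3 : w ^ 3 = 1 := by linear_combination (w - 1) * hw
        rintro (rfl | rfl | rfl)
        · rfl
        · linear_combination (-(u ^ 3)) * hw3
        · linear_combination (-(u ^ 3) * (w ^ 3 + 1)) * hw3
    rw [this, Finset.card_insert_of_notMem, Finset.card_insert_of_notMem, Finset.card_singleton]
    · norm_num
    · simp only [mem_singleton]
      intro h
      exact hw2 (mul_right_cancel₀ hu h).symm
    · simp only [mem_insert, mem_singleton, not_or]
      refine ⟨fun h => hw1 ?_, fun h => hww ?_⟩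
      · apply mul_right_cancel₀ hu; rw [one_mul]; exact h.symm
      · apply mul_right_cancel₀ hu; rw [one_mul]; exact h.symm

theorem sum_sq (h3 : p % 3 = 1) : ∑ n : ZMod p, T p n ^ 2 = 2 * (p : ℤ) ^ 2 - 2 * p := by
  have h1 : ∀ n : ZMod p, T p n ^ 2 = ∑ u : ZMod p, ∑ v : ZMod p,
      quadraticChar (ZMod p) (u ^ 3 + n) * quadraticChar (ZMod p) (v ^ 3 + n) := by
    intro n
    rw [pow_two, T, Finset.sum_mul_sum]
  rw [Finset.sum_congr rfl fun n _ => h1 n, Finset.sum_comm]
  have h2 : ∀ u : ZMod p, ∑ n : ZMod p, ∑ v : ZMod p,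
      quadraticChar (ZMod p) (u ^ 3 + n) * quadraticChar (ZMod p) (v ^ 3 + n) =
      (p : ℤ) * (if u = 0 then 1 else 3) - p := by
    intro u
    rw [Finset.sum_comm]
    rw [Finset.sum_congr rfl fun v _ => corr1 p hp2 (u ^ 3) (v ^ 3), Finset.sum_sub_distrib]
    rw [← count p h3 u, Finset.mul_sum]
    congr 1
    · refine Finset.sum_congr rfl fun v _ => ?_
      split_ifs <;> simp
    · simp [ZMod.card]
  rw [Finset.sum_congr rfl fun u _ => h2 u, Finset.sum_sub_distrib, ← Finset.mul_sum]
  have h4 : ∑ u : ZMod p, (if u = 0 then (1 : ℤ) else 3) = 3 * p - 2 := by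
    have : ∀ u : ZMod p, (if u = 0 then (1 : ℤ) else 3) = 3 - (if u = 0 then 2 else 0) := by
      intro u; split_ifs <;> norm_num
    rw [Finset.sum_congr rfl fun u _ => this u, Finset.sum_sub_distrib]
    simp [ZMod.card]
    ring
  rw [h4]
  simp [ZMod.card]
  ring

theorem sum_chi : ∑ n : ZMod p, quadraticChar (ZMod p) n * T p n = 0 := by
  have h1 : ∀ n : ZMod p, quadraticChar (ZMod p) n * T p n = ∑ u : ZMod p,
      quadraticChar (ZMod p) (0 + n) * quadraticChar (ZMod p) (u ^ 3 + n) := by
    intro n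
    rw [T, Finset.mul_sum, zero_add]
  rw [Finset.sum_congr rfl fun n _ => h1 n, Finset.sum_comm,
    Finset.sum_congr rfl fun u _ => corr1 p hp2 0 (u ^ 3), Finset.sum_sub_distrib]
  have : ∀ u : ZMod p, (if (0 : ZMod p) = u ^ 3 then (p : ℤ) else 0) = if u = 0 then (p : ℤ) else 0 := by
    intro u
    by_cases hu : u = 0
    · subst hu; simp
    · rw [if_neg hu, if_neg]
      intro h; exact hu (pow_eq_zero_iff (by norm_num) |>.mp h.symm)
  rw [Finset.sum_congr rfl fun u _ => this u]
  simp [ZMod.card]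

theorem T_zero : T p 0 = 0 := by
  unfold T
  rw [← quadraticChar_sum_zero (rc p hp2)]
  refine Finset.sum_congr rfl fun u _ => ?_
  rw [add_zero, map_pow]
  by_cases hu : u = 0
  · subst hu; simp
  · rw [pow_succ, quadraticChar_sq_one hu, one_mul]

end cs

end Pool.Agent.H888.L1I
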