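import Pool.Agent.H546.Hasse
import Pool.Agent.H546.PL

set_option autoImplicit false

/-!
# The Hasse invariant of the cubic family and isogenies to curves `y² = x³ + c`
-/

namespace Pool.Agent.H888.L1I

open PowerSeries Pool.Agent.H546

/-- the value of the list at three -/
def lev : List Q4 → Q4
  | [] => Q4.z0
  | a :: as => a.add ((lev as).add ((lev as).add (lev as)))

theorem ev_lev {O : Type*} [CommRing O] (s r : O) (p : List Q4) : (ev s r p).eval 3 = e4 s r (lev p) := by
  induction p with
  | nil => simp [ev, lev, e4_z0]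
  | cons a as ih =>
    rw [ev, Polynomial.eval_add, Polynomial.eval_C, Polynomial.eval_mul, Polynomial.eval_X, ih, lev, e4_add, e4_add,
      e4_add]
    ring

variable {k : Type*} [Field k] {p : ℕ} [hp : Fact p.Prime] [CharP k p]

/-- isogenies to `y² = x³ + c` and the Hasse coefficient -/
theorem hasse_uc (hp2 : p ≠ 2) {A c : k} {N D : Polynomial k} (hN : N.coeff 0 = 0)
    (hD : D.coeff 0 ≠ 0) (hc : c ≠ 0)
    (ode : wu A * wr N D ^ 2 = D * (N ^ 3 + Polynomial.C c * D ^ 3)) :
    hs p A = ((Polynomial.X ^ 3 + Polynomial.C c : Polynomial k) ^ ((p - 1) / 2)).coeff (p - 1) := by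
  obtain ⟨e, he⟩ := hp.out.odd_of_ne_two hp2
  have e1 : (p - 1) / 2 = e := by omega
  set al : Polynomial k →+* k⟦X⟧ := Polynomial.coeToPowerSeries.ringHom with hal
  have alC : ∀ c : k, al (Polynomial.C c) = C c := fun c => by simp [hal]
  have alc : ∀ P : Polynomial k, constantCoeff (al P) = P.coeff 0 := fun P => by
    rw [← coeff_zero_eq_constantCoeff_apply]; simp [hal]
  have alD : ∀ P : Polynomial k, d⁄dX k (al P) = al (Polynomial.derivative P) := by
    intro P; simp [hal, derivative_coe]
  have hDu : IsUnit (al D) := by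
    rw [PowerSeries.isUnit_iff_constantCoeff, alc]
    exact isUnit_iff_ne_zero.mpr hD
  obtain ⟨iD, hiD⟩ := hDu.exists_left_inv
  set U := al N * iD with hU
  have hiD' : d⁄dX k iD = - iD ^ 2 * (al (Polynomial.derivative D)) := by
    have h := congrArg (d⁄dX k) hiD
    rw [Derivation.leibniz, derivative_one, smul_eq_mul, smul_eq_mul, alD] at h
    linear_combination iD * h - (d⁄dX k iD) * hiD
  have hdU : d⁄dX k U = al (wr N D) * iD ^ 2 := by
    rw [hU, Derivation.leibniz, smul_eq_mul, smul_eq_mul, alD, hiD', wr, map_sub, map_mul, map_mul]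
    linear_combination (-(iD * al (Polynomial.derivative N))) * hiD
  have hU0 : constantCoeff U = 0 := by rw [hU, map_mul, alc, hN, zero_mul]
  have hwU : Polynomial.aeval U (Polynomial.X ^ 3 + Polynomial.C c) = U ^ 3 + C c := by
    simp only [map_add, map_pow, Polynomial.aeval_X, Polynomial.aeval_C]
    rfl
  have hode := congrArg al ode
  have key : Polynomial.aeval U (Polynomial.X ^ 3 + Polynomial.C c) = al (wu A) * (d⁄dX k U) ^ 2 := by
    rw [hwU, hdU]
    simp only [map_mul, map_pow, map_add, alC] at hode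
    rw [hU]
    linear_combination (-(iD ^ 4)) * hode - (al N ^ 3 * iD ^ 3 + C c * (1 + iD * al D + (iD * al D) ^ 2 +
      (iD * al D) ^ 3)) * hiD
  have hke : Polynomial.aeval U ((Polynomial.X ^ 3 + Polynomial.C c) ^ e) * d⁄dX k U =
      (d⁄dX k U) ^ p * al (wu A ^ e) := by
    rw [map_pow, key, he, map_pow]
    ring
  have h1 := cart_poly (k := k) (p := p) U hU0 ((Polynomial.X ^ 3 + Polynomial.C c) ^ e)
  have hc1 : constantCoeff (d⁄dX k U) = coeff 1 U := by
    rw [← coeff_zero_eq_constantCoeff_apply, coeff_derivative]; simp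
  rw [hke, pow_low _ _ hc1] at h1
  have hcoe : coeff (p - 1) (al (wu A ^ e)) = (wu A ^ e).coeff (p - 1) := Polynomial.coeff_coe _ _
  rw [hcoe] at h1
  have hne : coeff 1 U ≠ 0 := by
    intro h0
    have h2 := congrArg constantCoeff key
    rw [hwU, map_mul, map_pow, hc1, h0, map_add, map_pow, hU0] at h2
    simp at h2
    exact hc h2
  unfold hs
  rw [e1]
  apply mul_right_cancel₀ (pow_ne_zero p hne)
  rw [← h1]; ring

/-- the same in Weierstrass coordinates -/
theorem hasse_wc (hp2 : p ≠ 2) {A c : k} {n d : Polynomial k}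
    (h3 : n.eval 3 = 0) (hd : d.eval 3 ≠ 0) (hc : c ≠ 0)
    (ode : cub (ca A) (cb A) * wr n d ^ 2 = d * (n ^ 3 + Polynomial.C c * d ^ 3)) :
    hs p A = ((Polynomial.X ^ 3 + Polynomial.C c : Polynomial k) ^ ((p - 1) / 2)).coeff (p - 1) := by
  set L : Polynomial k := Polynomial.C A * Polynomial.X + 3 with hL
  have hL3 : L.eval 0 = 3 := by simp [hL]
  refine hasse_uc hp2 (N := n.comp L) (D := d.comp L) ?_ ?_ hc ?_
  · rw [Polynomial.coeff_zero_eq_eval_zero, Polynomial.eval_comp, hL3, h3]
  · rw [Polynomial.coeff_zero_eq_eval_zero, Polynomial.eval_comp, hL3]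
    exact hd
  · have hcomp := congrArg (fun P => P.comp L) ode
    simp only [Polynomial.mul_comp, Polynomial.pow_comp, Polynomial.C_comp, Polynomial.add_comp] at hcomp
    rw [hL, cub_comp, ← hL] at hcomp
    rw [hL, wr_comp, ← hL]
    linear_combination hcomp

end Pool.Agent.H888.L1I
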