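import Pool.Agent.H888.L1I.IsoS
import Pool.Agent.H888.L1I.Hc

set_option autoImplicit false
set_option maxRecDepth 100000
set_option maxHeartbeats 4000000

/-!
# An explicit isogeny of degree 5 from a curve with discriminant `-75` to a curve with `j = 0`
-/

namespace Pool.Agent.H888.L1I.I75

open Polynomial Pool.Agent.H546

def Fl : List Q4 := [⟨.ofNat 521, .ofNat 252, .ofNat 0, .ofNat 0⟩, ⟨.negSucc 299, .negSucc 107, .ofNat 0, .ofNat 0⟩, ⟨.ofNat 0, .ofNat 0, .ofNat 0, .ofNat 0⟩, ⟨.ofNat 20, .ofNat 0, .ofNat 0, .ofNat 0⟩]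

def n : List Q4 := [⟨.ofNat 161250, .ofNat 92250, .ofNat 0, .ofNat 0⟩, ⟨.negSucc 139999, .negSucc 19499, .ofNat 0, .ofNat 0⟩, ⟨.negSucc 94999, .negSucc 14999, .ofNat 0, .ofNat 0⟩, ⟨.ofNat 56250, .ofNat 26250, .ofNat 0, .ofNat 0⟩, ⟨.negSucc 12499, .negSucc 7499, .ofNat 0, .ofNat 0⟩, ⟨.ofNat 2500, .ofNat 0, .ofNat 0, .ofNat 0⟩]

def n1 : List Q4 := [⟨.negSucc 139999, .negSucc 19499, .ofNat 0, .ofNat 0⟩, ⟨.negSucc 189999, .negSucc 29999, .ofNat 0, .ofNat 0⟩, ⟨.ofNat 168750, .ofNat 78750, .ofNat 0, .ofNat 0⟩, ⟨.negSucc 49999, .negSucc 29999, .ofNat 0, .ofNat 0⟩, ⟨.ofNat 12500, .ofNat 0, .ofNat 0, .ofNat 0⟩]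

def h : List Q4 := [⟨.ofNat 200, .ofNat 102, .ofNat 0, .ofNat 0⟩, ⟨.negSucc 124, .negSucc 74, .ofNat 0, .ofNat 0⟩, ⟨.ofNat 50, .ofNat 0, .ofNat 0, .ofNat 0⟩]

def h1 : List Q4 := [⟨.negSucc 124, .negSucc 74, .ofNat 0, .ofNat 0⟩, ⟨.ofNat 100, .ofNat 0, .ofNat 0, .ofNat 0⟩]

def a1 : List Q4 := [⟨.negSucc 37944999, .negSucc 18179999, .ofNat 0, .ofNat 0⟩, ⟨.negSucc 28487499, .negSucc 12442499, .ofNat 0, .ofNat 0⟩, ⟨.ofNat 101912500, .ofNat 49987500, .ofNat 0, .ofNat 0⟩, ⟨.negSucc 85424999, .negSucc 35099999, .ofNat 0, .ofNat 0⟩, ⟨.ofNat 28437500, .ofNat 12712500, .ofNat 0, .ofNat 0⟩, ⟨.negSucc 4062499, .negSucc 2437499, .ofNat 0, .ofNat 0⟩, ⟨.ofNat 625000, .ofNat 0, .ofNat 0, .ofNat 0⟩]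

def a2 : List Q4 := [⟨.negSucc 54749999, .negSucc 23624999, .ofNat 0, .ofNat 0⟩, ⟨.ofNat 40937500, .ofNat 22162500, .ofNat 0, .ofNat 0⟩, ⟨.ofNat 3500000, .ofNat 7050000, .ofNat 0, .ofNat 0⟩, ⟨.negSucc 26374999, .negSucc 8999999, .ofNat 0, .ofNat 0⟩, ⟨.ofNat 10000000, .ofNat 4500000, .ofNat 0, .ofNat 0⟩, ⟨.negSucc 1562499, .negSucc 937499, .ofNat 0, .ofNat 0⟩, ⟨.ofNat 250000, .ofNat 0, .ofNat 0, .ofNat 0⟩]

def W : List Q4 := [⟨.ofNat 71555000, .ofNat 29070000, .ofNat 0, .ofNat 0⟩, ⟨.negSucc 110362499, .negSucc 56767499, .ofNat 0, .ofNat 0⟩, ⟨.ofNat 94912500, .ofNat 35887500, .ofNat 0, .ofNat 0⟩, ⟨.negSucc 32674999, .negSucc 17099999, .ofNat 0, .ofNat 0⟩, ⟨.ofNat 8437500, .ofNat 3712500, .ofNat 0, .ofNat 0⟩, ⟨.negSucc 937499, .negSucc 562499, .ofNat 0, .ofNat 0⟩, ⟨.ofNat 125000, .ofNat 0, .ofNat 0, .ofNat 0⟩]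

def W2 : List Q4 := [⟨.ofNat 9345442525000000, .ofNat 4160207700000000, .ofNat 0, .ofNat 0⟩, ⟨.negSucc 32296289624999999, .negSucc 14540472674999999, .ofNat 0, .ofNat 0⟩, ⟨.ofNat 52308050812500000, .ofNat 23184079312500000, .ofNat 0, .ofNat 0⟩, ⟨.negSucc 50969087374999999, .negSucc 23044064624999999, .ofNat 0, .ofNat 0⟩, ⟨.ofNat 34654092187500000, .ofNat 15318350437500000, .ofNat 0, .ofNat 0⟩, ⟨.negSucc 16606839374999999, .negSucc 7503654374999999, .ofNat 0, .ofNat 0⟩, ⟨.ofNat 6007813125000000, .ofNat 2665676250000000, .ofNat 0, .ofNat 0⟩, ⟨.negSucc 1593646874999999, .negSucc 719431874999999, .ofNat 0, .ofNat 0⟩, ⟨.ofNat 321285937500000, .ofNat 140442187500000, .ofNat 0, .ofNat 0⟩, ⟨.negSucc 44871874999999, .negSucc 20728124999999, .ofNat 0, .ofNat 0⟩, ⟨.ofNat 4570312500000, .ofNat 1982812500000, .ofNat 0, .ofNat 0⟩, ⟨.negSucc 234374999999, .negSucc 140624999999,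 .ofNat 0, .ofNat 0⟩, ⟨.ofNat 15625000000, .ofNat 0, .ofNat 0, .ofNat 0⟩]

def T1 : List Q4 := [⟨.ofNat 10110837257525000000, .ofNat 4522519728000000000, .ofNat 0, .ofNat 0⟩, ⟨.negSucc 40197507380624999999, .negSucc 17971621351874999999, .ofNat 0, .ofNat 0⟩, ⟨.ofNat 74005176539062500000, .ofNat 33110675208562500000, .ofNat 0, .ofNat 0⟩, ⟨.negSucc 83615325171874999999, .negSucc 37371456815624999999, .ofNat 0, .ofNat 0⟩, ⟨.ofNat 64444498898437500000, .ofNat 28840763179687500000, .ofNat 0, .ofNat 0⟩, ⟨.negSucc 35728743703124999999, .negSucc 15968792953124999999, .ofNat 0, .ofNat 0⟩, ⟨.ofNat 14503466140625000000, .ofNat 6486539906250000000, .ofNat 0, .ofNat 0⟩, ⟨.negSucc 4285501453124999999, .negSucc 1918602703124999999, .ofNat 0, .ofNat 0⟩, ⟨.ofNat 878797617187500000, .ofNat 392004773437500000, .ofNat 0, .ofNat 0⟩, ⟨.negSucc 101563984374999999, .negSucc 45625078124999999,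 .ofNat 0, .ofNat 0⟩, ⟨.negSucc 2338710937499999, .negSucc 1139273437499999, .ofNat 0, .ofNat 0⟩, ⟨.ofNat 3684609375000000, .ofNat 1588078125000000, .ofNat 0, .ofNat 0⟩, ⟨.negSucc 743046874999999, .negSucc 343124999999999, .ofNat 0, .ofNat 0⟩, ⟨.ofNat 86718750000000, .ofNat 37968750000000, .ofNat 0, .ofNat 0⟩, ⟨.negSucc 4687499999999, .negSucc 2812499999999, .ofNat 0, .ofNat 0⟩, ⟨.ofNat 312500000000, .ofNat 0, .ofNat 0, .ofNat 0⟩]

def n2 : List Q4 := [⟨.ofNat 68551875000, .ofNat 29750625000, .ofNat 0, .ofNat 0⟩, ⟨.negSucc 63138749999, .negSucc 32118749999, .ofNat 0, .ofNat 0⟩, ⟨.negSucc 22973749999, .negSucc 16904999999, .ofNat 0, .ofNat 0⟩, ⟨.ofNat 71881250000, .ofNat 26748750000, .ofNat 0, .ofNat 0⟩, ⟨.negSucc 21668749999, .negSucc 11418749999, .ofNat 0, .ofNat 0⟩, ⟨.negSucc 8856249999, .negSucc 3626249999, .ofNat 0, .ofNat 0⟩, ⟨.ofNat 9409375000, .ofNat 4655625000,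 .ofNat 0, .ofNat 0⟩, ⟨.negSucc 3849999999, .negSucc 1574999999, .ofNat 0, .ofNat 0⟩, ⟨.ofNat 718750000, .ofNat 318750000, .ofNat 0, .ofNat 0⟩, ⟨.negSucc 62499999, .negSucc 37499999, .ofNat 0, .ofNat 0⟩, ⟨.ofNat 6250000, .ofNat 0, .ofNat 0, .ofNat 0⟩]

def n3 : List Q4 := [⟨.ofNat 24776465625000000, .ofNat 11121198750000000, .ofNat 0, .ofNat 0⟩, ⟨.negSucc 37493845312499999, .negSucc 16505547187499999, .ofNat 0, .ofNat 0⟩, ⟨.negSucc 8274670312499999, .negSucc 2972016562499999, .ofNat 0, .ofNat 0⟩, ⟨.ofNat 44961175000000000, .ofNat 21230291250000000, .ofNat 0, .ofNat 0⟩, ⟨.negSucc 27721668749999999, .negSucc 11386237499999999, .ofNat 0, .ofNat 0⟩, ⟨.negSucc 9134587499999999, .negSucc 3604471874999999, .ofNat 0, .ofNat 0⟩, ⟨.ofNat 16490396875000000, .ofNat 7403737500000000, .ofNat 0, .ofNat 0⟩, ⟨.negSucc 6681810937499999, .negSucc 3093904687499999, .ofNat 0, .ofNat 0⟩,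 ⟨.negSucc 382921874999999, .negSucc 234478124999999, .ofNat 0, .ofNat 0⟩, ⟨.ofNat 1657640625000000, .ofNat 729000000000000, .ofNat 0, .ofNat 0⟩, ⟨.negSucc 816398437499999, .negSucc 361504687499999, .ofNat 0, .ofNat 0⟩, ⟨.ofNat 220851562500000, .ofNat 101376562500000, .ofNat 0, .ofNat 0⟩, ⟨.negSucc 39593749999999, .negSucc 17156249999999, .ofNat 0, .ofNat 0⟩, ⟨.ofNat 4335937500000, .ofNat 1898437500000, .ofNat 0, .ofNat 0⟩, ⟨.negSucc 234374999999, .negSucc 140624999999, .ofNat 0, .ofNat 0⟩, ⟨.ofNat 15625000000, .ofNat 0, .ofNat 0, .ofNat 0⟩]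

def h2 : List Q4 := [⟨.ofNat 92020, .ofNat 40800, .ofNat 0, .ofNat 0⟩, ⟨.negSucc 126499, .negSucc 55499, .ofNat 0, .ofNat 0⟩, ⟨.ofNat 63750, .ofNat 28950, .ofNat 0, .ofNat 0⟩, ⟨.negSucc 12499, .negSucc 7499, .ofNat 0, .ofNat 0⟩, ⟨.ofNat 2500, .ofNat 0, .ofNat 0, .ofNat 0⟩]

def h4 : List Q4 := [⟨.ofNat 16790880400, .ofNat 7508832000, .ofNat 0, .ofNat 0⟩, ⟨.negSucc 45925059999, .negSucc 20536619999, .ofNat 0, .ofNat 0⟩, ⟨.ofNat 54947650000, .ofNat 24571458000, .ofNat 0, .ofNat 0⟩, ⟨.negSucc 37556499999, .negSucc 16800899999, .ofNat 0, .ofNat 0⟩, ⟨.ofNat 16039675000, .ofNat 7180125000, .ofNat 0, .ofNat 0⟩, ⟨.negSucc 4397499999, .negSucc 1957499999, .ofNat 0, .ofNat 0⟩, ⟨.ofNat 756250000, .ofNat 332250000, .ofNat 0, .ofNat 0⟩, ⟨.negSucc 62499999, .negSucc 37499999, .ofNat 0, .ofNat 0⟩, ⟨.ofNat 6250000, .ofNat 0, .ofNat 0, .ofNat 0⟩]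

def h6 : List Q4 := [⟨.ofNat 3076898542408000, .ofNat 1376030640960000, .ofNat 0, .ofNat 0⟩, ⟨.negSucc 12623241751799999, .negSucc 5645283330599999, .ofNat 0, .ofNat 0⟩, ⟨.ofNat 23734614382500000, .ofNat 10614436972740000, .ofNat 0, .ofNat 0⟩, ⟨.negSucc 27044655574999999, .negSucc 12094740044999999, .ofNat 0, .ofNat 0⟩, ⟨.ofNat 20799658327500000, .ofNat 9301916137500000, .ofNat 0, .ofNat 0⟩, ⟨.negSucc 11374736624999999, .negSucc 5086945124999999, .ofNat 0, .ofNat 0⟩, ⟨.ofNat 4535570625000000, .ofNat 2028308850000000, .ofNat 0, .ofNat 0⟩, ⟨.negSucc 1328596874999999, .negSucc 594151874999999, .ofNat 0, .ofNat 0⟩, ⟨.ofNat 283665937500000, .ofNat 126942187500000, .ofNat 0, .ofNat 0⟩, ⟨.negSucc 43109374999999, .negSucc 19265624999999, .ofNat 0, .ofNat 0⟩, ⟨.ofNat 4476562500000, .ofNat 1949062500000, .ofNat 0, .ofNat 0⟩, ⟨.negSucc 234374999999, .negSucc 140624999999, .ofNat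 0, .ofNat 0⟩, ⟨.ofNat 15625000000, .ofNat 0, .ofNat 0, .ofNat 0⟩]

def nh : List Q4 := [⟨.ofNat 6170978224500000, .ofNat 2759757876900000, .ofNat 0, .ofNat 0⟩, ⟨.negSucc 19960766275999999, .negSucc 8926775407799999, .ofNat 0, .ofNat 0⟩, ⟨.ofNat 26467426377000000, .ofNat 11836531539000000, .ofNat 0, .ofNat 0⟩, ⟨.negSucc 16060640482499999, .negSucc 7182228334499999, .ofNat 0, .ofNat 0⟩, ⟨.negSucc 38841304999999, .negSucc 17080037999999, .ofNat 0, .ofNat 0⟩, ⟨.ofNat 7972297438500000, .ofNat 3564563692500000, .ofNat 0, .ofNat 0⟩, ⟨.negSucc 7021335824999999, .negSucc 3141067274999999, .ofNat 0, .ofNat 0⟩, ⟨.ofNat 3480412875000000, .ofNat 1556887770000000, .ofNat 0, .ofNat 0⟩, ⟨.negSucc 1151271562499999, .negSucc 513457312499999, .ofNat 0, .ofNat 0⟩, ⟨.ofNat 262496062500000, .ofNat 118319062500000, .ofNat 0, .ofNat 0⟩, ⟨.negSucc 41937499999999, .negSucc 18562499999999,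 .ofNat 0, .ofNat 0⟩, ⟨.ofNat 4429687500000, .ofNat 1932187500000, .ofNat 0, .ofNat 0⟩, ⟨.negSucc 234374999999, .negSucc 140624999999, .ofNat 0, .ofNat 0⟩, ⟨.ofNat 15625000000, .ofNat 0, .ofNat 0, .ofNat 0⟩]

def A : List Q4 := [⟨.negSucc 9811474, .negSucc 4387824, .ofNat 0, .ofNat 0⟩, ⟨.ofNat 3443500, .ofNat 1539980, .ofNat 0, .ofNat 0⟩]

def B : List Q4 := [⟨.ofNat 8423644200, .ofNat 3767168208, .ofNat 0, .ofNat 0⟩, ⟨.negSucc 1404778249, .negSucc 628235949, .ofNat 0, .ofNat 0⟩, ⟨.negSucc 3413638949, .negSucc 1526625749, .ofNat 0, .ofNat 0⟩, ⟨.ofNat 1498503750, .ofNat 670151250, .ofNat 0, .ofNat 0⟩, ⟨.negSucc 172174999, .negSucc 76998999, .ofNat 0, .ofNat 0⟩]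

def AM : Q4 := ⟨.ofNat 0, .ofNat 0, .ofNat 0, .ofNat 0⟩

def BM : Q4 := ⟨.ofNat 3125, .ofNat 0, .ofNat 0, .ofNat 0⟩

theorem ok : Ok (5) (1) AM BM (20) (1080) Fl n n1 h h1 a1 a2 W W2 T1 n2 n3 h2 h4 h6 nh A B where
  k1 := by decide +kernel
  k2 := by decide +kernel
  k3 := by decide +kernel
  k4 := by decide +kernel
  k5 := by decide +kernel
  k6 := by decide +kernel
  k7 := by decide +kernel
  k8 := by decide +kernel
  k9 := by decide +kernel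
  k10 := by decide +kernel
  k11 := by decide +kernel
  k12 := by decide +kernel
  k13 := by decide +kernel
  k14 := by decide +kernel
  k15 := by decide +kernel


theorem lev_n : (lev n).beq Q4.z0 = true := by decide +kernel

theorem lev_h : (Q4.mul 5 1 (lev h) ⟨.ofNat 275, .ofNat 123, .ofNat 0, .ofNat 0⟩).beq (qi (-20)) = true := by decide +kernel

end Pool.Agent.H888.L1I.I75
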