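import Pool.Agent.H888.L1I.IsoS

set_option autoImplicit false

/-!
# Isogenies of scaled short Weierstrass curves from verified lists
-/

namespace Pool.Agent.H888.L1I

open Polynomial Pool.Agent.H546

section scale

variable {O : Type*} [CommRing O]

/-- the polynomial `w^N P(x/w)` -/
noncomputable def sc (N : ℕ) (w : O) (P : O[X]) : O[X] :=
  ∑ i ∈ Finset.range (N + 1), C (P.coeff i * w ^ (N - i)) * X ^ i

theorem sc_coeff (N : ℕ) (w : O) (P : O[X]) (i : ℕ) :
    (sc N w P).coeff i = if i ≤ N then P.coeff i * w ^ (N - i) else 0 := by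
  unfold sc
  rw [finset_sum_coeff]
  simp only [coeff_C_mul, coeff_X_pow]
  by_cases h : i ≤ N
  · rw [if_pos h, Finset.sum_eq_single i]
    · rw [if_pos rfl, mul_one]
    · intro j _ hj; rw [if_neg (Ne.symm hj), mul_zero]
    · intro hi; exact absurd (Finset.mem_range.mpr (by omega)) hi
  · rw [if_neg h]
    apply Finset.sum_eq_zero
    intro j hj
    have := Finset.mem_range.mp hj
    rw [if_neg (by omega), mul_zero]

theorem sc_comp {N : ℕ} (w : O) {P : O[X]} (h : P.natDegree ≤ N) :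
    (sc N w P).comp (C w * X) = C (w ^ N) * P := by
  ext i
  rw [comp_C_mul_X_coeff, sc_coeff, coeff_C_mul]
  split_ifs with hi
  · rw [mul_assoc, ← pow_add, Nat.sub_add_cancel hi]; ring
  · rw [zero_mul, coeff_eq_zero_of_natDegree_lt (by omega), mul_zero]

theorem sc_deg (N : ℕ) (w : O) (P : O[X]) : (sc N w P).natDegree ≤ N := by
  rw [natDegree_le_iff_coeff_eq_zero]
  intro i hi
  rw [sc_coeff, if_neg (by omega)]

theorem sc_der {N : ℕ} (w : O) {P : O[X]} (h : P.natDegree ≤ N) :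
    C w * (derivative (sc N w P)).comp (C w * X) = C (w ^ N) * derivative P := by
  have h1 := congrArg derivative (sc_comp w h)
  rw [derivative_comp, derivative_C_mul, derivative_X, mul_one, derivative_C_mul] at h1
  exact h1

theorem comp_inj [IsDomain O] {w : O} (hw : w ≠ 0) {P Q : O[X]}
    (h : P.comp (C w * X) = Q.comp (C w * X)) : P = Q := by
  ext i
  have h1 := congrArg (fun x => x.coeff i) h
  simp only [comp_C_mul_X_coeff] at h1
  exact mul_right_cancel₀ (pow_ne_zero i hw) h1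

end scale

section dat

variable {O K k : Type*} [CommRing O] [IsDomain O] [Field K] [Algebra O K] [Field k]
  (S : DV O K k) {p : ℕ} [hp : Fact p.Prime] [CharP k p]

/-- an isogeny of scaled short Weierstrass curves from the list data -/
theorem Ok.datw {s r : O} {D E : Int} {AM BM : Q4} {KF R L M : Int}
    {Fl n n1 h h1 a1 a2 W W2 T1 n2 n3 h2 h4 h6 nh A B : List Q4}
    (ok : Ok D E AM BM KF R Fl n n1 h h1 a1 a2 W W2 T1 n2 n3 h2 h4 h6 nh A B)
    (hs : s ^ 2 = D) (hr : r ^ 2 = E) {a1' b1' a b m : O}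
    (hF : ev s r Fl = C (KF : O) * cub a1' b1') (hA : e4 s r AM = KF * (a * m ^ 4))
    (hB : e4 s r BM = KF * (b * m ^ 6)) {e : ℕ} (hnl : n.length ≤ 2 * e + 2) (hhl : h.length ≤ e + 1)
    (hAl : A.length ≤ e + 1) (hBl : B.length ≤ 2 * e + 2)
    (hL : (n.getD (2 * e + 1) Q4.z0).beq (qi L) = true) (hM : (h.getD e Q4.z0).beq (qi M) = true)
    (hm : S.red m ≠ 0) {w : O} (hw : S.red w ≠ 0) (hKF : ¬ (p : ℤ) ∣ KF) (hR : ¬ (p : ℤ) ∣ R)
    (hLp : ¬ (p : ℤ) ∣ L) (hMp : ¬ (p : ℤ) ∣ M) :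
    Dat S (cub (w ^ 2 * a1') (w ^ 3 * b1')) (w ^ 2 * a) (w ^ 3 * b) m (2 * e + 1) := by
  have rL := S.int_ne (p := p) hLp
  have rM := S.int_ne (p := p) hMp
  have rK := S.int_ne (p := p) hKF
  have hK0 : (KF : O) ≠ 0 := by intro h0; rw [h0, map_zero] at rK; exact rK rfl
  have hL0 : (L : O) ≠ 0 := by intro h0; rw [h0, map_zero] at rL; exact rL rfl
  have hM0 : (M : O) ≠ 0 := by intro h0; rw [h0, map_zero] at rM; exact rM rfl
  have hw0 : w ≠ 0 := by intro h0; rw [h0, map_zero] at hw; exact hw rfl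
  have cn : (ev s r n).coeff (2 * e + 1) = (L : O) := by
    rw [ev_coeff, Q4.eq_of_beq hL, e4_qi]
  have ch : (ev s r h).coeff e = (M : O) := by
    rw [ev_coeff, Q4.eq_of_beq hM, e4_qi]
  have dn : (ev s r n).natDegree ≤ 2 * e + 1 := ev_deg s r _ _ hnl
  have dh : (ev s r h).natDegree ≤ e := ev_deg s r _ e hhl
  have dA : (ev s r A).natDegree ≤ e := ev_deg s r _ e hAl
  have dB : (ev s r B).natDegree ≤ 2 * e + 1 := ev_deg s r _ _ hBl
  have ode := ok.ode hs hr hK0 hF hA hB
  have bez := ok.bez hs hr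
  have sn := sc_comp w dn
  have sh := sc_comp w dh
  have sA := sc_comp w dA
  have sB := sc_comp w dB
  have tn := sc_der w dn
  have th := sc_der w dh
  set N := ev s r n with hN
  set H := ev s r h with hH
  set N1 := sc (2 * e + 1) w N with hN1
  set H1 := sc e w H with hH1
  have cN1 : N1.coeff (2 * e + 1) = (L : O) := by
    rw [hN1, sc_coeff, if_pos le_rfl, cn, Nat.sub_self, pow_zero, mul_one]
  have cH1 : H1.coeff e = (M : O) := by
    rw [hH1, sc_coeff, if_pos le_rfl, ch, Nat.sub_self, pow_zero, mul_one]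
  have dN1 : N1.natDegree = 2 * e + 1 :=
    le_antisymm (sc_deg _ _ _) (le_natDegree_of_ne_zero (by rw [cN1]; exact hL0))
  have dH1 : H1.natDegree ≤ e := sc_deg _ _ _
  have hCw : (C w : O[X]) ≠ 0 := C_ne_zero.mpr hw0
  have ode1 : cub (w ^ 2 * a1') (w ^ 3 * b1') * C 1 * (derivative N1 * H1 - 2 * N1 * derivative H1) ^ 2 =
      N1 ^ 3 + C (w ^ 2 * a * m ^ 4) * C 1 ^ 2 * N1 * H1 ^ 4 + C (w ^ 3 * b * m ^ 6) * C 1 ^ 3 * H1 ^ 6 := by
    apply comp_inj hw0
    apply mul_left_cancel₀ (pow_ne_zero 2 hCw)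
    have hcub : (cub (w ^ 2 * a1') (w ^ 3 * b1')).comp (C w * X) = C w ^ 3 * cub a1' b1' := by
      simp only [cub, add_comp, mul_comp, pow_comp, X_comp, C_comp, C_mul, C_pow]
      ring
    have h2 : (2 : O[X]).comp (C w * X) = 2 := by
      rw [← map_ofNat C 2, C_comp]
    simp only [mul_comp, pow_comp, sub_comp, add_comp, C_comp, hcub, h2]
    rw [sn, sh]
    have e1 : C w * ((derivative N1).comp (C w * X) * (C (w ^ e) * H) -
        2 * (C (w ^ (2 * e + 1)) * N) * (derivative H1).comp (C w * X)) =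
        C (w ^ (2 * e + 1)) * C (w ^ e) * (derivative N * H - 2 * N * derivative H) := by
      linear_combination (C (w ^ e) * H) * tn - 2 * (C (w ^ (2 * e + 1)) * N) * th
    have e2 := congrArg (fun x => x ^ 2) e1
    simp only [C_mul, C_pow, C_1] at e2 ode ⊢
    linear_combination (C w ^ 3 * cub a1' b1') * e2 + (C w ^ (6 * e + 5)) * ode
  have bez1 : sc e w (ev s r A) * N1 + sc (2 * e + 1) w (ev s r B) * H1 = C (w ^ (3 * e + 1) * (R : O)) := by
    apply comp_inj hw0
    rw [add_comp, mul_comp, mul_comp, C_comp, sn, sh, sA, sB]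
    simp only [C_mul, C_pow] at bez ⊢
    linear_combination (C w ^ (3 * e + 1)) * bez
  refine Dat.of_sq S (c := 1) ode1 ?_ hm ?_ ?_ dN1 ?_ bez1 ?_
  · rw [map_one]; exact one_ne_zero
  · intro h0; rw [h0, coeff_zero] at cH1; exact hM0 cH1.symm
  · rw [dN1]; omega
  · rw [leadingCoeff, dN1, cN1]; exact rL
  · rw [map_mul, map_pow]
    exact mul_ne_zero (pow_ne_zero _ hw) (S.int_ne hR)

end dat

end Pool.Agent.H888.L1I
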