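import Pool.Agent.H546.L1.Sums

set_option autoImplicit false
set_option maxRecDepth 100000

/-!
# The sum with `(-640320)³` modulo `41²`
-/

namespace Pool.Agent.H888.L1I

open Finset

theorem cb_u6 (k : ℕ) : k.centralBinom * Pool.Agent.H546.L1.u6 k =
    (6 * k).factorial / ((3 * k).factorial * (k.factorial * (k.factorial * k.factorial))) := by
  have h1 : k.centralBinom * k.factorial * k.factorial = (2 * k).factorial := by
    have := Nat.choose_mul_factorial_mul_factorial (show k ≤ 2 * k by omega)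
    rw [show 2 * k - k = k by omega] at this
    exact this
  have h2 := Pool.Agent.H546.L1.u6_fac k
  have hpos : 0 < (3 * k).factorial * (k.factorial * (k.factorial * k.factorial)) := by positivity
  symm
  apply Nat.div_eq_of_eq_mul_left hpos
  rw [← h2, ← h1]
  ring

theorem fortyone (wi : ZMod (41 ^ 2)) (hwi : ((-262537412640768000 : ℤ) : ZMod (41 ^ 2)) * wi = 1) :
    ∑ k ∈ range 41, (k.centralBinom : ZMod (41 ^ 2)) * ((Pool.Agent.H546.L1.u6 k : ℕ) : ZMod (41 ^ 2)) * wi ^ k =
      ((-81 : ℤ) : ZMod (41 ^ 2)) := by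
  have h : wi = 898 := by
    have e : (((-262537412640768000 : ℤ)) : ZMod (41 ^ 2)) * 898 = 1 := by decide +kernel
    linear_combination 898 * hwi - wi * e
  subst h
  have h0 : ∀ k ∈ range 41, ((k.centralBinom : ZMod (41 ^ 2)) * ((Pool.Agent.H546.L1.u6 k : ℕ) : ZMod (41 ^ 2)) * 898 ^ k) =
      ((((6 * k).factorial / ((3 * k).factorial * (k.factorial * (k.factorial * k.factorial))) * 898 ^ k : ℕ)) :
        ZMod (41 ^ 2)) := by
    intro k _
    rw [← cb_u6]
    push_cast
    rfl
  rw [sum_congr rfl h0, ← Nat.cast_sum]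
  have h3 : (∑ k ∈ range 41, (6 * k).factorial / ((3 * k).factorial * (k.factorial * (k.factorial * k.factorial))) *
      898 ^ k) % 41 ^ 2 = 1600 % 41 ^ 2 := by decide +kernel
  have h2 := (ZMod.natCast_eq_natCast_iff' _ 1600 (41 ^ 2)).mpr h3
  rw [h2]
  decide +kernel

end Pool.Agent.H888.L1I
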